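import Pool.Agent.Q167.WK.B
import Pool.Agent.Q198.CI.Law

/-! # Central moments of even order under independence of bounded order -/

set_option autoImplicit false

namespace Q167.LF

open Finset MeasureTheory Q198.CI Q167.WK

/-- the centred number of elements -/
noncomputable def dv (I : Finset ℕ) (p : ℕ → ℝ) (S : Finset ℕ) : ℝ :=
  ∑ i ∈ I, ((if i ∈ S then (1 : ℝ) else 0) - p i)

lemma dv_eq {I : Finset ℕ} {p : ℕ → ℝ} {S : Finset ℕ} (h : S ⊆ I) :
    dv I p S = S.card - ∑ i ∈ I, p i := by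
  unfold dv
  rw [sum_sub_distrib]
  congr 1
  rw [← sum_filter, sum_const, nsmul_eq_mul, mul_one]
  congr 2
  ext i
  rw [mem_filter]
  exact ⟨fun hi => hi.2, fun hi => ⟨h hi, hi⟩⟩

/-- moments of low order depend only on the marginals -/
lemma mom_eq {I : Finset ℕ} {K : ℕ} {p : ℕ → ℝ} {v v' : Finset ℕ → ℝ} (hv : IsLaw I K p v)
    (hv' : IsLaw I K p v') : ∀ (k : ℕ) (T : Finset ℕ), T ⊆ I → k + T.card ≤ K →
    ∑ S ∈ I.powerset, v S * (dv I p S ^ k * (if T ⊆ S then 1 else 0)) =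
      ∑ S ∈ I.powerset, v' S * (dv I p S ^ k * (if T ⊆ S then 1 else 0)) := by
  classical
  intro k
  induction k with
  | zero =>
    intro T hT hTK
    have h : ∀ u : Finset ℕ → ℝ, IsLaw I K p u →
        ∑ S ∈ I.powerset, u S * (dv I p S ^ 0 * (if T ⊆ S then 1 else 0)) = ∏ n ∈ T, p n := by
      intro u hu
      rw [← hu.2 T hT (by omega)]
      have e : Icc T I = I.powerset.filter (fun S => T ⊆ S) := by
        ext S
        simp only [mem_Icc, mem_filter, mem_powerset]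
        exact and_comm
      rw [e, sum_filter]
      refine sum_congr rfl fun S _ => ?_
      split_ifs <;> simp
    rw [h v hv, h v' hv']
  | succ k ih =>
    intro T hT hTK
    have h : ∀ u : Finset ℕ → ℝ,
        ∑ S ∈ I.powerset, u S * (dv I p S ^ (k + 1) * (if T ⊆ S then 1 else 0)) =
        ∑ i ∈ I, ((∑ S ∈ I.powerset, u S * (dv I p S ^ k * (if insert i T ⊆ S then 1 else 0))) -
          p i * ∑ S ∈ I.powerset, u S * (dv I p S ^ k * (if T ⊆ S then 1 else 0))) := by
      intro u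
      have h1 : ∀ i ∈ I, ((∑ S ∈ I.powerset, u S * (dv I p S ^ k *
          (if insert i T ⊆ S then 1 else 0))) -
          p i * ∑ S ∈ I.powerset, u S * (dv I p S ^ k * (if T ⊆ S then 1 else 0))) =
          ∑ S ∈ I.powerset, u S * (dv I p S ^ k * ((if i ∈ S then (1 : ℝ) else 0) - p i) *
            (if T ⊆ S then 1 else 0)) := by
        intro i _
        rw [mul_sum, ← sum_sub_distrib]
        refine sum_congr rfl fun S _ => ?_
        by_cases hT' : T ⊆ S <;> by_cases hi : i ∈ S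
        · rw [if_pos (insert_subset hi hT'), if_pos hT', if_pos hi]
          ring
        · rw [if_neg (fun h => hi (h (mem_insert_self _ _))), if_pos hT', if_neg hi]
          ring
        · rw [if_neg (fun h => hT' ((subset_insert _ _).trans h)), if_neg hT', if_pos hi]
          ring
        · rw [if_neg (fun h => hT' ((subset_insert _ _).trans h)), if_neg hT', if_neg hi]
          ring
      rw [sum_congr rfl h1, sum_comm]
      refine sum_congr rfl fun S _ => ?_
      rw [pow_succ, ← mul_sum]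
      congr 1
      have h2 : dv I p S ^ k * dv I p S = ∑ i ∈ I, dv I p S ^ k *
          ((if i ∈ S then (1 : ℝ) else 0) - p i) := by
        rw [← mul_sum]
        rfl
      rw [h2, sum_mul]
    rw [h v, h v']
    refine sum_congr rfl fun i hi => ?_
    rw [ih (insert i T) (insert_subset hi hT) (by
      have := card_insert_le i T
      omega), ih T hT (by omega)]

/-- exponential moment of the product law -/
lemma exp_mom {I : Finset ℕ} {p : ℕ → ℝ} (hp : ∀ i, 0 ≤ p i) {t : ℝ}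
    (ht : |t| ≤ 1) (hp1 : ∀ i, p i ≤ 1) :
    ∑ S ∈ I.powerset, ((∏ n ∈ S, p n) * ∏ n ∈ I \ S, (1 - p n)) * Real.exp (t * dv I p S) ≤
      Real.exp (t ^ 2 * ∑ i ∈ I, p i) := by
  classical
  have h1 : ∀ S ∈ I.powerset, ((∏ n ∈ S, p n) * ∏ n ∈ I \ S, (1 - p n)) *
      Real.exp (t * dv I p S) = ((∏ n ∈ S, (p n * Real.exp t)) * ∏ n ∈ I \ S, (1 - p n)) *
        Real.exp (-(t * ∑ i ∈ I, p i)) := by
    intro S hS
    rw [dv_eq (mem_powerset.1 hS), prod_mul_distrib, prod_const, ← Real.exp_nat_mul]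
    have h2 : Real.exp (t * ((S.card : ℝ) - ∑ i ∈ I, p i)) =
        Real.exp ((S.card : ℝ) * t) * Real.exp (-(t * ∑ i ∈ I, p i)) := by
      rw [← Real.exp_add]
      congr 1
      ring
    rw [h2]
    ring
  rw [sum_congr rfl h1, ← sum_mul, ← prod_add]
  have h3 : ∏ i ∈ I, (p i * Real.exp t + (1 - p i)) ≤
      ∏ i ∈ I, Real.exp (p i * (t + t ^ 2)) := by
    refine prod_le_prod (fun i _ => ?_) (fun i _ => ?_)
    · have := hp i
      have := hp1 i
      have := Real.exp_pos t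
      have : 0 ≤ p i * Real.exp t := mul_nonneg (hp i) this.le
      linarith
    · have h4 := Real.abs_exp_sub_one_sub_id_le ht
      have h5 := (abs_le.1 h4).2
      have h6 := Real.add_one_le_exp (p i * (t + t ^ 2))
      have h7 : p i * (Real.exp t - 1) ≤ p i * (t + t ^ 2) :=
        mul_le_mul_of_nonneg_left (by linarith) (hp i)
      linarith
  refine (mul_le_mul_of_nonneg_right h3 (Real.exp_pos _).le).trans (le_of_eq ?_)
  rw [← Real.exp_sum, ← Real.exp_add, ← sum_mul]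
  congr 1
  ring

/-- the even moments of the product law -/
lemma prod_mom {I : Finset ℕ} {p : ℕ → ℝ} (hp : ∀ i, 0 ≤ p i) (hp1 : ∀ i, p i ≤ 1) (h : ℕ)
    (hμ : 1 ≤ ∑ i ∈ I, p i) :
    ∑ S ∈ I.powerset, ((∏ n ∈ S, p n) * ∏ n ∈ I \ S, (1 - p n)) * dv I p S ^ (2 * h) ≤
      6 * (2 * h).factorial * (∑ i ∈ I, p i) ^ h := by
  classical
  set m : ℝ := ∑ i ∈ I, p i with hm
  have hm0 : 0 < m := by linarith
  have hs0 : 0 < Real.sqrt m := Real.sqrt_pos.2 hm0
  have hs1 : 1 ≤ Real.sqrt m := by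
    rw [Real.one_le_sqrt]
    exact hμ
  have hss : Real.sqrt m ^ 2 = m := Real.sq_sqrt hm0.le
  set t : ℝ := 1 / Real.sqrt m with ht
  have ht0 : 0 < t := by positivity
  have ht1 : t ≤ 1 := by
    rw [ht, div_le_one hs0]
    exact hs1
  have htt : t ^ 2 * m = 1 := by
    rw [ht, div_pow, one_pow, hss]
    field_simp
  have hpt : ∀ x : ℝ, x ^ (2 * h) ≤ m ^ h * (((2 * h).factorial : ℝ) *
      (Real.exp (t * x) + Real.exp (-t * x))) := by
    intro x
    have h1 : x ^ (2 * h) = m ^ h * |t * x| ^ (2 * h) := by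
      rw [Even.pow_abs (even_two_mul h), mul_pow, pow_mul t, pow_mul x, ← mul_assoc,
        ← mul_pow, mul_comm m, htt, one_pow, one_mul]
    rw [h1]
    refine mul_le_mul_of_nonneg_left ?_ (by positivity)
    have h2 := Real.pow_div_factorial_le_exp |t * x| (abs_nonneg _) (2 * h)
    have h3 : (0 : ℝ) < ((2 * h).factorial : ℝ) := by exact_mod_cast Nat.factorial_pos _
    rw [div_le_iff₀ h3] at h2
    have h4 : Real.exp |t * x| ≤ Real.exp (t * x) + Real.exp (-t * x) := by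
      rcases abs_cases (t * x) with ⟨h5, _⟩ | ⟨h5, _⟩
      · rw [h5]
        linarith [Real.exp_pos (-t * x)]
      · rw [h5]
        have : -t * x = -(t * x) := by ring
        rw [this]
        linarith [Real.exp_pos (t * x)]
    calc |t * x| ^ (2 * h) ≤ Real.exp |t * x| * ((2 * h).factorial : ℝ) := h2
      _ ≤ (Real.exp (t * x) + Real.exp (-t * x)) * ((2 * h).factorial : ℝ) :=
          mul_le_mul_of_nonneg_right h4 h3.le
      _ = _ := by ring
  have hπ : ∀ S ∈ I.powerset, 0 ≤ (∏ n ∈ S, p n) * ∏ n ∈ I \ S, (1 - p n) := by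
    intro S _
    exact mul_nonneg (prod_nonneg fun n _ => hp n) (prod_nonneg fun n _ => by linarith [hp1 n])
  have e1 := exp_mom (I := I) hp (t := t) (by rw [abs_of_pos ht0]; exact ht1) hp1
  have e2 := exp_mom (I := I) hp (t := -t) (by rw [abs_neg, abs_of_pos ht0]; exact ht1) hp1
  rw [← hm, htt] at e1
  rw [← hm, neg_sq, htt] at e2
  have h3 : Real.exp 1 ≤ 3 := by
    have := Real.exp_one_lt_d9
    linarith
  calc ∑ S ∈ I.powerset, ((∏ n ∈ S, p n) * ∏ n ∈ I \ S, (1 - p n)) * dv I p S ^ (2 * h)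
      ≤ ∑ S ∈ I.powerset, ((∏ n ∈ S, p n) * ∏ n ∈ I \ S, (1 - p n)) *
          (m ^ h * (((2 * h).factorial : ℝ) *
            (Real.exp (t * dv I p S) + Real.exp (-t * dv I p S)))) :=
        sum_le_sum fun S hS => mul_le_mul_of_nonneg_left (hpt _) (hπ S hS)
    _ = m ^ h * ((2 * h).factorial : ℝ) *
        (∑ S ∈ I.powerset, ((∏ n ∈ S, p n) * ∏ n ∈ I \ S, (1 - p n)) *
          Real.exp (t * dv I p S) +
        ∑ S ∈ I.powerset, ((∏ n ∈ S, p n) * ∏ n ∈ I \ S, (1 - p n)) *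
          Real.exp (-t * dv I p S)) := by
        rw [← sum_add_distrib, mul_sum]
        refine sum_congr rfl fun S _ => ?_
        ring
    _ ≤ m ^ h * ((2 * h).factorial : ℝ) * (3 + 3) := by
        refine mul_le_mul_of_nonneg_left ?_ (by positivity)
        linarith
    _ = _ := by ring

/-- the even moments under independence of bounded order -/
lemma law_mom {I : Finset ℕ} {K : ℕ} {p : ℕ → ℝ} {v : Finset ℕ → ℝ} (hv : IsLaw I K p v)
    (hp : ∀ i, 0 ≤ p i) (hp1 : ∀ i, p i ≤ 1) {h : ℕ} (hK : 2 * h ≤ K) (hμ : 1 ≤ ∑ i ∈ I, p i) :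
    ∑ S ∈ I.powerset, v S * dv I p S ^ (2 * h) ≤
      6 * (2 * h).factorial * (∑ i ∈ I, p i) ^ h := by
  have h1 := mom_eq hv (law_prod I hp hp1 K) (2 * h) ∅ (empty_subset _) (by simpa using hK)
  simp only [empty_subset, if_true, mul_one] at h1
  rw [h1]
  exact prod_mom hp hp1 h hμ

/-- few elements are improbable -/
lemma law_few {I : Finset ℕ} {K : ℕ} {p : ℕ → ℝ} {v : Finset ℕ → ℝ} (hv : IsLaw I K p v)
    (hp : ∀ i, 0 ≤ p i) (hp1 : ∀ i, p i ≤ 1) {h : ℕ} (hK : 2 * h ≤ K) (hμ : 1 ≤ ∑ i ∈ I, p i) :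
    ∑ S ∈ I.powerset with (S.card : ℝ) ≤ (∑ i ∈ I, p i) / 2, v S ≤
      6 * (2 * h).factorial * 4 ^ h / (∑ i ∈ I, p i) ^ h := by
  classical
  set m : ℝ := ∑ i ∈ I, p i with hm
  have hm0 : 0 < m := by linarith
  have h1 := law_mom hv hp hp1 hK hμ
  rw [← hm] at h1
  have h2 : (m / 2) ^ (2 * h) * ∑ S ∈ I.powerset with (S.card : ℝ) ≤ m / 2, v S ≤
      ∑ S ∈ I.powerset, v S * dv I p S ^ (2 * h) := by
    rw [mul_sum]
    calc ∑ S ∈ I.powerset with (S.card : ℝ) ≤ m / 2, (m / 2) ^ (2 * h) * v S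
        ≤ ∑ S ∈ I.powerset with (S.card : ℝ) ≤ m / 2, v S * dv I p S ^ (2 * h) := by
          refine sum_le_sum fun S hS => ?_
          rw [mem_filter, mem_powerset] at hS
          rw [mul_comm]
          refine mul_le_mul_of_nonneg_left ?_ (hv.1 S hS.1)
          rw [dv_eq hS.1, ← hm, ← Even.pow_abs (even_two_mul h) ((S.card : ℝ) - m)]
          refine pow_le_pow_left₀ (by positivity) ?_ _
          rw [abs_sub_comm, abs_of_nonneg (by linarith)]
          linarith
      _ ≤ _ := by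
          refine sum_le_sum_of_subset_of_nonneg (filter_subset _ _) fun S hS _ => ?_
          exact mul_nonneg (hv.1 S (mem_powerset.1 hS)) ((even_two_mul h).pow_nonneg _)
  have h3 := h2.trans h1
  have h4 : 0 < m ^ h := by positivity
  rw [le_div_iff₀ h4]
  have h5 : (m / 2) ^ (2 * h) * 4 ^ h = m ^ h * m ^ h := by
    have e4 : (4 : ℝ) ^ h = 2 ^ (2 * h) := by
      rw [pow_mul]
      norm_num
    rw [div_pow, e4, div_mul_cancel₀ _ (by positivity), two_mul, pow_add]
  have h6 : 0 < (4 : ℝ) ^ h := by positivity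
  have h7 : (m / 2) ^ (2 * h) * (∑ S ∈ I.powerset with (S.card : ℝ) ≤ m / 2, v S) * 4 ^ h ≤
      6 * (2 * h).factorial * m ^ h * 4 ^ h := mul_le_mul_of_nonneg_right h3 h6.le
  have h8 : (m / 2) ^ (2 * h) * (∑ S ∈ I.powerset with (S.card : ℝ) ≤ m / 2, v S) * 4 ^ h =
      m ^ h * ((∑ S ∈ I.powerset with (S.card : ℝ) ≤ m / 2, v S) * m ^ h) := by
    calc (m / 2) ^ (2 * h) * (∑ S ∈ I.powerset with (S.card : ℝ) ≤ m / 2, v S) * 4 ^ h
        = ((m / 2) ^ (2 * h) * 4 ^ h) * ∑ S ∈ I.powerset with (S.card : ℝ) ≤ m / 2, v S := by ring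
      _ = _ := by rw [h5]; ring
  rw [h8] at h7
  have h9 : 6 * ((2 * h).factorial : ℝ) * m ^ h * 4 ^ h =
      m ^ h * (6 * ((2 * h).factorial : ℝ) * 4 ^ h) := by ring
  rw [h9] at h7
  exact le_of_mul_le_mul_left h7 h4

variable {Ω : Type*} [MeasurableSpace Ω] {μ : Measure Ω} {p : ℕ → ℝ} {κ : ℕ} {A : Ω → Set ℕ}

/-- the trace of the random set is `S` -/
def trc (A : Ω → Set ℕ) (I S : Finset ℕ) : Set Ω := {ω | ∀ n ∈ I, n ∈ A ω ↔ n ∈ S}

lemma trc_meas (hA : LimModel μ p κ A) (I S : Finset ℕ) : MeasurableSet (trc A I S) := by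
  have h : trc A I S = ⋂ n ∈ I, {ω | n ∈ A ω ↔ n ∈ S} := by
    ext ω
    simp [trc]
  rw [h]
  refine Finset.measurableSet_biInter _ fun n _ => ?_
  by_cases h : n ∈ S
  · have : {ω | n ∈ A ω ↔ n ∈ S} = {ω | n ∈ A ω} := by
      ext ω
      simp [h]
    rw [this]
    exact hA.meas n
  · have : {ω | n ∈ A ω ↔ n ∈ S} = {ω | n ∈ A ω}ᶜ := by
      ext ω
      simp [h]
    rw [this]
    exact (hA.meas n).compl

lemma trc_disj {I S S' : Finset ℕ} (hS : S ⊆ I) (hS' : S' ⊆ I) (hne : S ≠ S') :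
    Disjoint (trc A I S) (trc A I S') := by
  rw [Set.disjoint_left]
  intro ω h3 h4
  apply hne
  ext n
  constructor
  · intro h5
    exact (h4 n (hS h5)).1 ((h3 n (hS h5)).2 h5)
  · intro h5
    exact (h3 n (hS' h5)).1 ((h4 n (hS' h5)).2 h5)

/-- the measure of a finite union of traces -/
lemma trc_union [IsProbabilityMeasure μ] (hA : LimModel μ p κ A) {I : Finset ℕ}
    {F : Finset (Finset ℕ)} (hF : ∀ S ∈ F, S ⊆ I) :
    μ.real (⋃ S ∈ F, trc A I S) = ∑ S ∈ F, μ.real (trc A I S) := by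
  rw [measureReal_biUnion_finset]
  · intro S hS S' hS' hne
    exact trc_disj (hF S hS) (hF S' hS') hne
  · intro S _
    exact trc_meas hA I S

lemma model_law [IsProbabilityMeasure μ] (hA : LimModel μ p κ A) (I : Finset ℕ) :
    IsLaw I κ p (fun S => μ.real (trc A I S)) := by
  classical
  constructor
  · intro S _
    exact measureReal_nonneg
  · intro T hTI hTc
    rw [← hA.prob T hTc, ← trc_union hA (fun S hS => (mem_Icc.1 hS).2)]
    congr 1
    ext ω
    simp only [Set.mem_iUnion, Set.mem_ofPred_eq]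
    constructor
    · rintro ⟨S, hS, h⟩ n hn
      rw [mem_Icc] at hS
      exact (h n (hTI hn)).2 (hS.1 hn)
    · intro h
      refine ⟨I.filter (fun n => n ∈ A ω), ?_, ?_⟩
      · rw [mem_Icc]
        exact ⟨fun n hn => mem_filter.2 ⟨hTI hn, h n hn⟩, filter_subset _ _⟩
      · intro n hn
        rw [mem_filter]
        exact ⟨fun h2 => ⟨hn, h2⟩, fun h2 => h2.2⟩

open Classical in
/-- the probability of few elements in a finite set -/
theorem model_few [IsProbabilityMeasure μ] (hA : LimModel μ p κ A) (hp : ∀ i, 0 ≤ p i)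
    (hp1 : ∀ i, p i ≤ 1) {h : ℕ} (hK : 2 * h ≤ κ) {I : Finset ℕ} (hμ : 1 ≤ ∑ i ∈ I, p i) :
    MeasurableSet {ω | (((I.filter fun n => n ∈ A ω).card : ℕ) : ℝ) ≤ (∑ i ∈ I, p i) / 2} ∧
    μ.real {ω | (((I.filter fun n => n ∈ A ω).card : ℕ) : ℝ) ≤ (∑ i ∈ I, p i) / 2} ≤
      6 * (2 * h).factorial * 4 ^ h / (∑ i ∈ I, p i) ^ h := by
  set F : Finset (Finset ℕ) := I.powerset.filter (fun S => (S.card : ℝ) ≤ (∑ i ∈ I, p i) / 2)
    with hF
  have e : {ω | (((I.filter fun n => n ∈ A ω).card : ℕ) : ℝ) ≤ (∑ i ∈ I, p i) / 2} =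
      ⋃ S ∈ F, trc A I S := by
    ext ω
    simp only [Set.mem_ofPred_eq, Set.mem_iUnion]
    constructor
    · intro h1
      refine ⟨I.filter (fun n => n ∈ A ω), ?_, ?_⟩
      · rw [hF, mem_filter, mem_powerset]
        exact ⟨filter_subset _ _, h1⟩
      · intro n hn
        rw [mem_filter]
        exact ⟨fun h2 => ⟨hn, h2⟩, fun h2 => h2.2⟩
    · rintro ⟨S, hS, h1⟩
      rw [hF, mem_filter, mem_powerset] at hS
      have h2 : I.filter (fun n => n ∈ A ω) = S := by
        ext n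
        rw [mem_filter]
        constructor
        · intro h3
          exact (h1 n h3.1).1 h3.2
        · intro h3
          exact ⟨hS.1 h3, (h1 n (hS.1 h3)).2 h3⟩
      rw [h2]
      exact hS.2
  have hFI : ∀ S ∈ F, S ⊆ I := fun S hS => mem_powerset.1 (mem_filter.1 hS).1
  rw [e]
  constructor
  · exact Finset.measurableSet_biUnion _ fun S _ => trc_meas hA I S
  · rw [trc_union hA hFI]
    exact law_few (model_law hA I) hp hp1 hK hμ

end Q167.LF
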