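import Pool.Agent.Q167.LI.K

/-! # Refinement of laws of bounded order; empty blocks for general probabilities -/

set_option autoImplicit false

namespace Q167.LF

open Finset Q198.CI Q167.LI

lemma sum_Icc_insert_insert {I T : Finset ℕ} {g : ℕ} (hg : g ∉ I) (hT : T ⊆ I)
    (w : Finset ℕ → ℝ) :
    ∑ S ∈ Icc (insert g T) (insert g I), w S = ∑ S ∈ Icc T I, w (insert g S) := by
  classical
  refine (sum_nbij' (fun S => insert g S) (fun S => S.erase g) ?_ ?_ ?_ ?_ ?_).symm
  · intro S hS
    rw [mem_Icc] at hS ⊢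
    exact ⟨insert_subset_insert _ hS.1, insert_subset_insert _ hS.2⟩
  · intro S hS
    rw [mem_Icc] at hS ⊢
    constructor
    · intro n hn
      rw [mem_erase]
      refine ⟨fun h => hg (h ▸ hT hn), hS.1 (mem_insert_of_mem hn)⟩
    · intro n hn
      rw [mem_erase] at hn
      exact (mem_insert.1 (hS.2 hn.2)).resolve_left hn.1
  · intro S hS
    rw [mem_Icc] at hS
    exact erase_insert fun h => hg (hS.2 h)
  · intro S hS
    rw [mem_Icc] at hS
    exact insert_erase (hS.1 (mem_insert_self _ _))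
  · intro S _
    rfl

lemma sum_Icc_insert {I T : Finset ℕ} {g : ℕ} (hg : g ∉ I) (hT : T ⊆ I) (w : Finset ℕ → ℝ) :
    ∑ S ∈ Icc T (insert g I), w S = ∑ S ∈ Icc T I, (w S + w (insert g S)) := by
  classical
  rw [sum_add_distrib, ← sum_Icc_insert_insert hg hT w, ← sum_union]
  · refine sum_congr ?_ fun _ _ => rfl
    ext S
    rw [mem_union, mem_Icc, mem_Icc, mem_Icc]
    constructor
    · rintro ⟨h1, h2⟩
      by_cases h : g ∈ S
      · right
        exact ⟨insert_subset h h1, h2⟩
      · left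
        refine ⟨h1, fun n hn => ?_⟩
        exact (mem_insert.1 (h2 hn)).resolve_left fun he => h (he ▸ hn)
    · rintro (⟨h1, h2⟩ | ⟨h1, h2⟩)
      · exact ⟨h1, h2.trans (subset_insert _ _)⟩
      · exact ⟨(subset_insert _ _).trans h1, h2⟩
  · rw [disjoint_left]
    intro S h1 h2
    rw [mem_Icc] at h1 h2
    exact hg (h1.2 (h2.1 (mem_insert_self _ _)))

lemma sum_Icc_union {I Q T₁ T₂ : Finset ℕ} (hIQ : Disjoint I Q) (h1 : T₁ ⊆ I) (h2 : T₂ ⊆ Q)
    (F : Finset ℕ → Finset ℕ → ℝ) :
    ∑ S ∈ Icc (T₁ ∪ T₂) (I ∪ Q), F (S ∩ I) (S ∩ Q) =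
      ∑ S₁ ∈ Icc T₁ I, ∑ S₂ ∈ Icc T₂ Q, F S₁ S₂ := by
  classical
  rw [← sum_product']
  have hd := disjoint_left.1 hIQ
  refine sum_nbij' (fun S => (S ∩ I, S ∩ Q)) (fun x => x.1 ∪ x.2) ?_ ?_ ?_ ?_ ?_
  · intro S hS
    rw [mem_Icc] at hS
    rw [mem_product, mem_Icc, mem_Icc]
    refine ⟨⟨fun n hn => ?_, inter_subset_right⟩, fun n hn => ?_, inter_subset_right⟩
    · exact mem_inter.2 ⟨hS.1 (mem_union_left _ hn), h1 hn⟩
    · exact mem_inter.2 ⟨hS.1 (mem_union_right _ hn), h2 hn⟩
  · intro x hx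
    rw [mem_product, mem_Icc, mem_Icc] at hx
    rw [mem_Icc]
    exact ⟨union_subset_union hx.1.1 hx.2.1, union_subset_union hx.1.2 hx.2.2⟩
  · intro S hS
    rw [mem_Icc] at hS
    ext n
    simp only [mem_union, mem_inter]
    constructor
    · rintro (h | h) <;> exact h.1
    · intro h
      rcases mem_union.1 (hS.2 h) with h3 | h3
      · exact Or.inl ⟨h, h3⟩
      · exact Or.inr ⟨h, h3⟩
  · intro x hx
    rw [mem_product, mem_Icc, mem_Icc] at hx
    refine Prod.ext ?_ ?_
    · ext n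
      simp only [mem_inter, mem_union]
      constructor
      · rintro ⟨h | h, h3⟩
        · exact h
        · exact absurd (hx.2.2 h) (hd h3)
      · intro h
        exact ⟨Or.inl h, hx.1.2 h⟩
    · ext n
      simp only [mem_inter, mem_union]
      constructor
      · rintro ⟨h | h, h3⟩
        · exact absurd h3 (hd (hx.1.2 h))
        · exact h
      · intro h
        exact ⟨Or.inr h, hx.2.2 h⟩
  · intro S _
    rfl

/-- replacing one element of probability `p g` by a finite set -/
lemma refine_one {I Q : Finset ℕ} {g : ℕ} {K : ℕ} {p : ℕ → ℝ} {w : Finset ℕ → ℝ}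
    (hgI : g ∉ I) (hIQ : Disjoint I Q) (hw : IsLaw (insert g I) K p w)
    (hp : ∀ n ∈ Q, 0 ≤ p n ∧ p n ≤ 1) (hg0 : 0 < p g) (hρ : 1 - ∏ n ∈ Q, (1 - p n) ≤ p g) :
    ∃ w' : Finset ℕ → ℝ, IsLaw (I ∪ Q) K p w' ∧ w ∅ ≤ w' ∅ := by
  classical
  set π : Finset ℕ → ℝ := fun S => (∏ n ∈ S, p n) * ∏ n ∈ Q \ S, (1 - p n) with hπ
  set ρ : ℝ := 1 - ∏ n ∈ Q, (1 - p n) with hρd
  have hπ0 : ∀ S ⊆ Q, 0 ≤ π S := by
    intro S hS
    exact mul_nonneg (prod_nonneg fun n hn => (hp n (hS hn)).1)
      (prod_nonneg fun n hn => by linarith [(hp n (mem_sdiff.1 hn).1).2])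
  set F : Finset ℕ → Finset ℕ → ℝ := fun S₁ S₂ =>
    if S₂ = ∅ then w S₁ + w (insert g S₁) * (1 - ρ / p g) else w (insert g S₁) * (π S₂ / p g)
    with hF
  have hr : 0 ≤ 1 - ρ / p g := by
    have : ρ / p g ≤ 1 := by
      rw [div_le_one hg0]
      exact hρ
    linarith
  have hF0 : ∀ S₁ ⊆ I, ∀ S₂ ⊆ Q, 0 ≤ F S₁ S₂ := by
    intro S₁ h1 S₂ h2
    have e1 := hw.1 S₁ (h1.trans (subset_insert _ _))
    have e2 := hw.1 (insert g S₁) (insert_subset_insert _ h1)
    simp only [hF]
    split_ifs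
    · exact add_nonneg e1 (mul_nonneg e2 hr)
    · exact mul_nonneg e2 (div_nonneg (hπ0 S₂ h2) hg0.le)
  refine ⟨fun S => F (S ∩ I) (S ∩ Q), ⟨?_, ?_⟩, ?_⟩
  · intro S _
    exact hF0 _ inter_subset_right _ inter_subset_right
  · intro T hT hTK
    obtain ⟨T₁, hT₁⟩ : ∃ T₁, T₁ = T ∩ I := ⟨_, rfl⟩
    obtain ⟨T₂, hT₂⟩ : ∃ T₂, T₂ = T ∩ Q := ⟨_, rfl⟩
    have h1 : T₁ ⊆ I := hT₁ ▸ inter_subset_right
    have h2 : T₂ ⊆ Q := hT₂ ▸ inter_subset_right
    have hTT : T = T₁ ∪ T₂ := by
      rw [hT₁, hT₂, ← inter_union_distrib_left]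
      exact (inter_eq_left.2 hT).symm
    have hd : Disjoint T₁ T₂ := (hIQ.mono_left h1).mono_right h2
    have hc : T₁.card + T₂.card ≤ K := by
      rw [← card_union_of_disjoint hd, ← hTT]
      exact hTK
    rw [hTT, sum_Icc_union hIQ h1 h2 F, prod_union hd]
    rcases T₂.eq_empty_or_nonempty with h3 | h3
    · rw [h3, prod_empty, mul_one]
      have h4 : ∀ S₁ ∈ Icc T₁ I, ∑ S₂ ∈ Icc ∅ Q, F S₁ S₂ = w S₁ + w (insert g S₁) := by
        intro S₁ _
        have hm : (∅ : Finset ℕ) ∈ Icc (∅ : Finset ℕ) Q := by simp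
        rw [← add_sum_erase _ _ hm]
        have h5 : ∑ S₂ ∈ (Icc (∅ : Finset ℕ) Q).erase ∅, F S₁ S₂ =
            ∑ S₂ ∈ (Icc (∅ : Finset ℕ) Q).erase ∅, w (insert g S₁) / p g * π S₂ := by
          refine sum_congr rfl fun S₂ hS₂ => ?_
          simp only [hF]
          rw [if_neg (mem_erase.1 hS₂).1]
          ring
        have h6 := prod_moment (empty_subset Q) p
        rw [← add_sum_erase _ _ hm] at h6
        simp only [prod_empty, one_mul, sdiff_empty] at h6
        have h7 : ∑ S₂ ∈ (Icc (∅ : Finset ℕ) Q).erase ∅, π S₂ = ρ := by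
          rw [hρd]
          linarith
        rw [h5, ← mul_sum, h7]
        simp only [hF, if_true]
        field_simp
        ring
      rw [sum_congr rfl h4, ← sum_Icc_insert hgI h1 w]
      refine hw.2 T₁ (h1.trans (subset_insert _ _)) (by omega)
    · have h4 : ∀ S₁ ∈ Icc T₁ I, ∑ S₂ ∈ Icc T₂ Q, F S₁ S₂ =
          w (insert g S₁) * ((∏ n ∈ T₂, p n) / p g) := by
        intro S₁ _
        have h5 : ∑ S₂ ∈ Icc T₂ Q, F S₁ S₂ = ∑ S₂ ∈ Icc T₂ Q, w (insert g S₁) / p g * π S₂ := by
          refine sum_congr rfl fun S₂ hS₂ => ?_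
          simp only [hF]
          rw [if_neg (fun h => by
            rw [mem_Icc, h] at hS₂
            exact h3.ne_empty (subset_empty.1 hS₂.1))]
          ring
        rw [h5, ← mul_sum, prod_moment h2 p]
        ring
      rw [sum_congr rfl h4, ← sum_mul, ← sum_Icc_insert_insert hgI h1 w,
        hw.2 (insert g T₁) (insert_subset_insert _ h1) (by
          have := card_insert_le g T₁
          have := h3.card_pos
          omega), prod_insert (fun h => hgI (h1 h))]
      field_simp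
  · simp only [hF, empty_inter, if_true]
    have := mul_nonneg (hw.1 (insert g ∅) (insert_subset_insert _ (empty_subset _))) hr
    linarith

/-- replacing the elements of a homogeneous law by groups -/
theorem group_law {I : Finset ℕ} {N K : ℕ} {p : ℕ → ℝ} {r δ : ℝ} (b : ℕ → ℕ)
    (hb : ∀ n ∈ I, b n < N) (hp : ∀ n ∈ I, 0 ≤ p n ∧ p n ≤ 1) (hr0 : 0 < r)
    (hρ : ∀ k, 1 - ∏ n ∈ I with b n = k, (1 - p n) ≤ r)
    (hlaw : ∀ Λ : Finset ℕ, Λ.card = N → ∃ w : Finset ℕ → ℝ, IsLaw Λ K (fun _ => r) w ∧ δ ≤ w ∅) :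
    ∃ w : Finset ℕ → ℝ, IsLaw I K p w ∧ δ ≤ w ∅ := by
  classical
  obtain ⟨s, hs⟩ : ∃ s : ℕ, ∀ n ∈ I, n < s := ⟨I.sup id + 1, fun n hn => by
    have := le_sup (f := id) hn
    simp only [id] at this
    omega⟩
  set P : ℕ → ℝ := fun n => if n < s then p n else r with hP
  have hPs : ∀ n ∈ I, P n = p n := fun n hn => by
    simp only [hP]
    rw [if_pos (hs n hn)]
  have key : ∀ j ≤ N, ∃ w : Finset ℕ → ℝ,
      IsLaw ((Ico j N).image (fun k => s + k) ∪ I.filter (fun n => b n < j)) K P w ∧ δ ≤ w ∅ := by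
    intro j
    induction j with
    | zero =>
      intro _
      have h1 : ((Ico 0 N).image (fun k => s + k)).card = N := by
        rw [card_image_of_injective _ (add_right_injective s), Nat.card_Ico, Nat.sub_zero]
      obtain ⟨w, hw, hδ⟩ := hlaw _ h1
      have h2 : I.filter (fun n => b n < 0) = ∅ := by
        rw [filter_eq_empty_iff]
        intro n _
        omega
      rw [h2, union_empty]
      refine ⟨w, ⟨hw.1, fun T hT hTK => ?_⟩, hδ⟩
      rw [hw.2 T hT hTK]
      refine prod_congr rfl fun n hn => ?_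
      have h3 := hT hn
      rw [mem_image] at h3
      obtain ⟨k, _, rfl⟩ := h3
      simp only [hP]
      rw [if_neg (by omega)]
    | succ j ih =>
      intro hj
      obtain ⟨w, hw, hδ⟩ := ih (by omega)
      have e1 : (Ico j N).image (fun k => s + k) ∪ I.filter (fun n => b n < j) =
          insert (s + j) ((Ico (j + 1) N).image (fun k => s + k) ∪
            I.filter (fun n => b n < j)) := by
        rw [← insert_union, ← image_insert]
        congr 2
        ext k
        simp only [mem_Ico, mem_insert]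
        omega
      rw [e1] at hw
      have hg : s + j ∉ (Ico (j + 1) N).image (fun k => s + k) ∪ I.filter (fun n => b n < j) := by
        intro h
        rcases mem_union.1 h with h | h
        · rw [mem_image] at h
          obtain ⟨k, hk, hk'⟩ := h
          rw [mem_Ico] at hk
          omega
        · have := hs _ (mem_filter.1 h).1
          omega
      have hd : Disjoint ((Ico (j + 1) N).image (fun k => s + k) ∪ I.filter (fun n => b n < j))
          (I.filter (fun n => b n = j)) := by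
        rw [disjoint_left]
        intro n h1 h2
        rw [mem_filter] at h2
        rcases mem_union.1 h1 with h | h
        · rw [mem_image] at h
          obtain ⟨k, _, hk'⟩ := h
          have := hs _ h2.1
          omega
        · rw [mem_filter] at h
          omega
      obtain ⟨w', hw', hδ'⟩ := refine_one hg hd hw (fun n hn => by
          rw [mem_filter] at hn
          rw [hPs n hn.1]
          exact hp n hn.1) (by
          simp only [hP]
          rw [if_neg (by omega)]
          exact hr0) (by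
          have h3 : ∏ n ∈ I with b n = j, (1 - P n) = ∏ n ∈ I with b n = j, (1 - p n) :=
            prod_congr rfl fun n hn => by rw [hPs n (mem_filter.1 hn).1]
          rw [h3]
          simp only [hP]
          rw [if_neg (by omega)]
          exact hρ j)
      refine ⟨w', ?_, hδ.trans hδ'⟩
      have e2 : (Ico (j + 1) N).image (fun k => s + k) ∪ I.filter (fun n => b n < j + 1) =
          ((Ico (j + 1) N).image (fun k => s + k) ∪ I.filter (fun n => b n < j)) ∪
            I.filter (fun n => b n = j) := by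
        rw [union_assoc, ← filter_or]
        congr 2
        funext n
        rw [eq_iff_iff]
        omega
      rw [e2]
      exact hw'
  obtain ⟨w, hw, hδ⟩ := key N le_rfl
  have e : (Ico N N).image (fun k => s + k) ∪ I.filter (fun n => b n < N) = I := by
    rw [Ico_self, image_empty, empty_union]
    exact filter_true_of_mem hb
  rw [e] at hw
  refine ⟨w, ⟨hw.1, fun T hT hTK => ?_⟩, hδ⟩
  rw [hw.2 T hT hTK]
  exact prod_congr rfl fun n hn => hPs n (hT hn)

/-- the partial sums -/
noncomputable def cs (I : Finset ℕ) (p : ℕ → ℝ) (n : ℕ) : ℝ := ∑ i ∈ I with i < n, p i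

/-- greedy groups -/
lemma group_le {I : Finset ℕ} {p : ℕ → ℝ} (hp : ∀ n ∈ I, 0 ≤ p n ∧ p n ≤ 1 / 2) (k : ℕ) :
    ∑ n ∈ I with ⌊2 * cs I p n⌋₊ = k, p n ≤ 1 := by
  classical
  set G : Finset ℕ := I.filter (fun n => ⌊2 * cs I p n⌋₊ = k) with hG
  have hcs0 : ∀ n, 0 ≤ cs I p n := fun n =>
    sum_nonneg fun i hi => (hp i (mem_filter.1 hi).1).1
  rcases G.eq_empty_or_nonempty with h | h
  · rw [h, sum_empty]
    norm_num
  · have ha := min'_mem G h
    have hb := max'_mem G h
    set a := G.min' h with hadef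
    set z := G.max' h with hzdef
    have h1 : (k : ℝ) ≤ 2 * cs I p a := by
      have h2 := (mem_filter.1 ha).2
      have h3 := Nat.floor_le (a := 2 * cs I p a) (by linarith [hcs0 a])
      rw [h2] at h3
      exact h3
    have h4 : 2 * cs I p z < k + 1 := by
      have h2 := (mem_filter.1 hb).2
      have h3 := Nat.lt_floor_add_one (2 * cs I p z)
      rw [h2] at h3
      exact h3
    have h5 : cs I p a + ∑ n ∈ G.erase z, p n ≤ cs I p z := by
      unfold cs
      rw [← sum_union]
      · refine sum_le_sum_of_subset_of_nonneg ?_ fun i hi _ => (hp i (mem_filter.1 hi).1).1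
        intro n hn
        rcases mem_union.1 hn with h6 | h6
        · rw [mem_filter] at h6 ⊢
          exact ⟨h6.1, lt_of_lt_of_le h6.2 (min'_le _ _ hb)⟩
        · rw [mem_erase] at h6
          rw [mem_filter]
          refine ⟨(mem_filter.1 h6.2).1, lt_of_le_of_ne (le_max' _ _ h6.2) h6.1⟩
      · rw [disjoint_left]
        intro n h6 h7
        rw [mem_filter] at h6
        rw [mem_erase] at h7
        have := min'_le _ _ h7.2
        omega
    rw [← add_sum_erase _ _ hb]
    have h6 := (hp z (mem_filter.1 hb).1).2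
    linarith

lemma prod_ge {G : Finset ℕ} {p : ℕ → ℝ} (hp : ∀ n ∈ G, 0 ≤ p n ∧ p n ≤ 1 / 2)
    {s : ℝ} (hs : ∑ n ∈ G, p n ≤ s) : Real.exp (-2 * s) ≤ ∏ n ∈ G, (1 - p n) := by
  have h1 : ∏ n ∈ G, Real.exp (-2 * p n) ≤ ∏ n ∈ G, (1 - p n) := by
    refine prod_le_prod (fun n _ => (Real.exp_pos _).le) (fun n hn => ?_)
    obtain ⟨h2, h3⟩ := hp n hn
    have h4 : 0 < 1 - p n := by linarith
    have h5 := Real.one_sub_inv_le_log_of_pos h4
    have h6 : -2 * p n ≤ 1 - (1 - p n)⁻¹ := by
      have h7 : 1 - (1 - p n)⁻¹ = -(p n / (1 - p n)) := by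
        field_simp
        ring
      rw [h7]
      have h8 : p n / (1 - p n) ≤ 2 * p n := by
        rw [div_le_iff₀ h4]
        nlinarith
      linarith
    calc Real.exp (-2 * p n) ≤ Real.exp (Real.log (1 - p n)) := Real.exp_le_exp.2 (by linarith)
      _ = 1 - p n := Real.exp_log h4
  refine le_trans ?_ h1
  rw [← Real.exp_sum, ← mul_sum]
  exact Real.exp_le_exp.2 (by linarith)

/-- empty blocks under independence of order three -/
theorem block_three {I : Finset ℕ} {p : ℕ → ℝ} {m : ℝ} (hm : 1 ≤ m)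
    (hp : ∀ n ∈ I, 0 ≤ p n ∧ p n ≤ 1 / 2) (hs : ∑ n ∈ I, p n ≤ m) :
    ∃ w : Finset ℕ → ℝ, IsLaw I 3 p w ∧ 1 / (4000 * m) ≤ w ∅ := by
  classical
  obtain ⟨N, hN⟩ : ∃ N : ℕ, N = ⌊2 * m⌋₊ + 21 := ⟨_, rfl⟩
  have hNm : (N : ℝ) ≤ 2 * m + 21 := by
    rw [hN]
    push_cast
    linarith [Nat.floor_le (a := 2 * m) (by linarith)]
  have hN21 : (21 : ℝ) ≤ N := by
    rw [hN]
    push_cast
    have : (0 : ℝ) ≤ (⌊2 * m⌋₊ : ℝ) := Nat.cast_nonneg _
    linarith
  have hN0 : (0 : ℝ) < N := by linarith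
  refine group_law (N := N + 1) (r := 7 / 8) (fun n => ⌊2 * cs I p n⌋₊) ?_
    (fun n hn => ⟨(hp n hn).1, by linarith [(hp n hn).2]⟩) (by norm_num) ?_ ?_
  · intro n hn
    have h1 : cs I p n ≤ m := by
      refine le_trans ?_ hs
      refine sum_le_sum_of_subset_of_nonneg (filter_subset _ _) fun i hi _ => (hp i hi).1
    have h2 : ⌊2 * cs I p n⌋₊ ≤ ⌊2 * m⌋₊ := Nat.floor_le_floor (by linarith)
    omega
  · intro k
    have h1 := prod_ge (G := I.filter (fun n => ⌊2 * cs I p n⌋₊ = k))
      (fun n hn => hp n (mem_filter.1 hn).1) (group_le hp k)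
    have h2 : (1 : ℝ) / 8 ≤ Real.exp (-2 * 1) := by
      have h3 := Real.exp_one_lt_d9
      have h4 : Real.exp (-2 * 1) = 1 / (Real.exp 1 * Real.exp 1) := by
        rw [← Real.exp_add, one_div, ← Real.exp_neg]
        norm_num
      rw [h4]
      apply one_div_le_one_div_of_le
      · positivity
      · nlinarith [Real.exp_pos 1]
    have h5 : (1 : ℝ) / 8 ≤ ∏ n ∈ I with ⌊2 * cs I p n⌋₊ = k, (1 - p n) := h2.trans h1
    linarith [h5]
  · intro Λ hΛ
    have hKK : KK (N + 1) 1 (7 / 8 / (1 - 7 / 8)) = 7 * (N : ℝ) + 8 := by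
      unfold KK
      rw [sum_range_succ, sum_range_one]
      norm_num
      ring
    obtain ⟨q, q1, q2, q3⟩ := exists_q_odd (N := N) (m := 1) (by omega) (p := 7 / 8)
      (θ := 1 / 2) (δ := 1 / (20 * N)) (by norm_num) (by norm_num) (by norm_num) (by
        push_cast
        nlinarith) (by positivity) (by
        rw [div_lt_one (by positivity)]
        linarith) (by
        rw [hKK]
        push_cast
        have e1 : (N : ℝ) - 1 + 1 = N := by ring
        rw [e1]
        have e2 : 1 / (20 * (N : ℝ)) * ((1 + 1 / N) * (7 * N + 8)) =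
            (7 * N + 15 + 8 / N) / (20 * N) := by
          field_simp
          ring
        rw [e2]
        have e3 : 1 / (N : ℝ) ≤ 1 / 21 := one_div_le_one_div_of_le (by norm_num) hN21
        have e4 : 8 / (N : ℝ) ≤ 8 / 21 := by
          have : 8 / (N : ℝ) = 8 * (1 / N) := by ring
          rw [this]
          linarith
        have e5 : (7 * (N : ℝ) + 15 + 8 / N) / (20 * N) ≤ 2 / 5 + 1 / 50 := by
          rw [div_le_iff₀ (by positivity)]
          linarith
        linarith)
    have hl := law_of_q (I := Λ) hΛ q1 q2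
    refine ⟨_, hl, ?_⟩
    simp only [card_empty, Nat.choose_zero_right, Nat.cast_one, div_one]
    refine le_trans ?_ q3
    have e6 : (1 - 7 / 8) * (1 / (20 * (N : ℝ))) = 1 / (160 * N) := by
      field_simp
      norm_num
    rw [e6]
    apply one_div_le_one_div_of_le (by positivity)
    linarith

end Q167.LF
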