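import Pool.Agent.Q167.LF.A

/-! # Random sets of bounded order of independence meet large value sets -/

set_option autoImplicit false

namespace Q167.LF

open Finset MeasureTheory Filter Q198.CI Q167.WK
open scoped Topology

/-- many values in the set -/
def Many (V : ℕ → ℕ → Prop) (ε : ℝ) (n : ℕ) (S : Set ℕ) : Prop :=
  ∃ T : Finset ℕ, (n : ℝ) ^ (1 / 2 - ε) ≤ (T.card : ℝ) ∧ ∀ N ∈ T, N ∈ S ∧ V n N

lemma Many.mono {V : ℕ → ℕ → Prop} {ε ε' : ℝ} {n : ℕ} {S : Set ℕ} (hn : 1 ≤ n) (h : ε' ≤ ε)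
    (hM : Many V ε' n S) : Many V ε n S := by
  obtain ⟨T, h1, h2⟩ := hM
  refine ⟨T, le_trans ?_ h1, h2⟩
  exact Real.rpow_le_rpow_of_exponent_le (by exact_mod_cast hn) (by linarith)

variable {Ω : Type*} [MeasurableSpace Ω] {μ : Measure Ω} {p : ℕ → ℝ} {κ : ℕ} {A : Ω → Set ℕ}
  {V : ℕ → ℕ → Prop} {G : ℕ → Prop}

/-- large sets of values -/
def Hyp (V : ℕ → ℕ → Prop) (G : ℕ → Prop) (p : ℕ → ℝ) : Prop :=
  ∀ ε : ℝ, 0 < ε → ∀ᶠ n : ℕ in atTop, G n →
    ∃ T : Finset ℕ, (n : ℝ) ^ (1 - ε) ≤ (T.card : ℝ) ∧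
      ∀ N ∈ T, V n N ∧ (n : ℝ) ^ (-(1 / 2) - ε) ≤ p N

theorem core [IsProbabilityMeasure μ] (hA : LimModel μ p κ A) (hp : ∀ i, 0 ≤ p i)
    (hp1 : ∀ i, p i ≤ 1) (hyp : Hyp V G p) {h : ℕ} (hK : 2 * h ≤ κ) {ε : ℝ} (hε : 0 < ε)
    (hε1 : ε ≤ 1) : ∃ n₀ : ℕ, 1 ≤ n₀ ∧ ∃ B : ℕ → Set Ω, ∃ D : ℝ, 0 < D ∧
      (∀ n, MeasurableSet (B n)) ∧
      (∀ n, n₀ ≤ n → μ.real (B n) ≤ D * (n : ℝ) ^ (-(h : ℝ) * (1 / 2 - ε / 2))) ∧
      ∀ n, n₀ ≤ n → ∀ ω, G n → ω ∉ B n → Many V ε n (A ω) := by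
  classical
  have h1 := hyp (ε / 4) (by positivity)
  have t1 : Tendsto (fun n : ℕ => (n : ℝ) ^ (ε / 2)) atTop atTop :=
    (tendsto_rpow_atTop (by positivity)).comp tendsto_natCast_atTop_atTop
  obtain ⟨n₁, hn₁⟩ := eventually_atTop.1 (h1.and (t1.eventually_ge_atTop 2))
  have hch : ∀ n : ℕ, ∃ T : Finset ℕ, n₁ ≤ n → G n → (n : ℝ) ^ (1 - ε / 4) ≤ (T.card : ℝ) ∧
      ∀ N ∈ T, V n N ∧ (n : ℝ) ^ (-(1 / 2) - ε / 4) ≤ p N := by
    intro n
    by_cases h2 : n₁ ≤ n ∧ G n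
    · obtain ⟨T, hT⟩ := (hn₁ n h2.1).1 h2.2
      exact ⟨T, fun _ _ => hT⟩
    · exact ⟨∅, fun h3 h4 => absurd ⟨h3, h4⟩ h2⟩
  choose T hT using hch
  set D : ℝ := 6 * ((2 * h).factorial : ℝ) * 4 ^ h with hD
  have hD0 : 0 < D := by
    have : (0 : ℝ) < ((2 * h).factorial : ℝ) := by exact_mod_cast Nat.factorial_pos _
    positivity
  have hlow : ∀ n : ℕ, max n₁ 1 ≤ n → G n → (n : ℝ) ^ (1 / 2 - ε / 2) ≤ ∑ i ∈ T n, p i := by
    intro n hn hG
    obtain ⟨e1, e2⟩ := hT n ((le_max_left _ _).trans hn) hG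
    have hn0 : (0 : ℝ) < n := by
      have : 1 ≤ n := (le_max_right _ _).trans hn
      exact_mod_cast this
    calc (n : ℝ) ^ (1 / 2 - ε / 2) = (n : ℝ) ^ (1 - ε / 4) * (n : ℝ) ^ (-(1 / 2) - ε / 4) := by
          rw [← Real.rpow_add hn0]
          congr 1
          ring
      _ ≤ ((T n).card : ℝ) * (n : ℝ) ^ (-(1 / 2) - ε / 4) :=
          mul_le_mul_of_nonneg_right e1 (Real.rpow_nonneg hn0.le _)
      _ = ∑ _i ∈ T n, (n : ℝ) ^ (-(1 / 2) - ε / 4) := by rw [sum_const, nsmul_eq_mul]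
      _ ≤ _ := sum_le_sum fun N hN => (e2 N hN).2
  have hone : ∀ n : ℕ, max n₁ 1 ≤ n → 1 ≤ (n : ℝ) ^ (1 / 2 - ε / 2) := by
    intro n hn
    have : 1 ≤ n := (le_max_right _ _).trans hn
    exact Real.one_le_rpow (by exact_mod_cast this) (by linarith)
  refine ⟨max n₁ 1, le_max_right _ _, fun n => if max n₁ 1 ≤ n ∧ G n then
    {ω | ((((T n).filter fun i => i ∈ A ω).card : ℕ) : ℝ) ≤ (∑ i ∈ T n, p i) / 2} else ∅,
    D, hD0, ?_, ?_, ?_⟩
  · intro n
    simp only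
    split_ifs with h2
    · exact (model_few hA hp hp1 hK ((hone n h2.1).trans (hlow n h2.1 h2.2))).1
    · exact MeasurableSet.empty
  · intro n hn
    have hn0 : (0 : ℝ) < n := by
      have : 1 ≤ n := (le_max_right _ _).trans hn
      exact_mod_cast this
    simp only
    split_ifs with h2
    · refine ((model_few hA hp hp1 hK ((hone n hn).trans (hlow n hn h2.2))).2).trans ?_
      rw [← hD, div_eq_mul_inv]
      refine mul_le_mul_of_nonneg_left ?_ hD0.le
      have e3 : (n : ℝ) ^ (-(h : ℝ) * (1 / 2 - ε / 2)) =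
          (((n : ℝ) ^ (1 / 2 - ε / 2)) ^ h)⁻¹ := by
        rw [← Real.rpow_natCast, ← Real.rpow_mul hn0.le, ← Real.rpow_neg hn0.le]
        congr 1
        ring
      rw [e3]
      apply inv_anti₀
      · have := hone n hn
        positivity
      · exact pow_le_pow_left₀ (by linarith [hone n hn]) (hlow n hn h2.2) _
    · simp only [measureReal_empty]
      positivity
  · intro n hn ω hG hω
    simp only at hω
    rw [if_pos ⟨hn, hG⟩, Set.mem_ofPred_eq, not_le] at hω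
    have hn0 : (0 : ℝ) < n := by
      have : 1 ≤ n := (le_max_right _ _).trans hn
      exact_mod_cast this
    refine ⟨(T n).filter fun i => i ∈ A ω, ?_, ?_⟩
    · refine le_trans ?_ hω.le
      have e4 := (hn₁ n ((le_max_left _ _).trans hn)).2
      have e5 : (n : ℝ) ^ (1 / 2 - ε / 2) = (n : ℝ) ^ (1 / 2 - ε) * (n : ℝ) ^ (ε / 2) := by
        rw [← Real.rpow_add hn0]
        congr 1
        ring
      have e6 := hlow n hn hG
      rw [e5] at e6
      have e7 : 0 ≤ (n : ℝ) ^ (1 / 2 - ε) := Real.rpow_nonneg hn0.le _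
      nlinarith
    · intro N hN
      rw [mem_filter] at hN
      exact ⟨hN.2, ((hT n ((le_max_left _ _).trans hn) hG).2 N hN.1).1⟩

/-- order six -/
theorem all_good [IsProbabilityMeasure μ] (hA : LimModel μ p κ A) (hp : ∀ i, 0 ≤ p i)
    (hp1 : ∀ i, p i ≤ 1) (hyp : Hyp V G p) (hK : 6 ≤ κ) {ε : ℝ} (hε : 0 < ε) :
    ∀ᵐ ω ∂μ, ∀ᶠ n : ℕ in atTop, G n → Many V ε n (A ω) := by
  obtain ⟨n₀, hn0, B, D, hD, _, h2, h3⟩ := core hA hp hp1 hyp (h := 3) hK
    (ε := min ε (1 / 6)) (by positivity) ((min_le_right _ _).trans (by norm_num))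
  set η := min ε (1 / 6) with hη
  have hη1 : η ≤ 1 / 6 := min_le_right _ _
  have hη2 : η ≤ ε := min_le_left _ _
  set B' : ℕ → Set Ω := fun n => if n₀ ≤ n then B n else ∅ with hB'
  have hb : ∀ n, μ (B' n) ≤ ENNReal.ofReal (D * (n : ℝ) ^ (-(5 / 4) : ℝ)) := by
    intro n
    simp only [hB']
    split_ifs with hn
    · rw [← ENNReal.ofReal_toReal (measure_ne_top μ (B n))]
      apply ENNReal.ofReal_le_ofReal
      refine (h2 n hn).trans ?_
      refine mul_le_mul_of_nonneg_left ?_ hD.le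
      refine Real.rpow_le_rpow_of_exponent_le (by exact_mod_cast hn0.trans hn) ?_
      push_cast
      linarith
    · simp
  have hs : Summable (fun n : ℕ => D * (n : ℝ) ^ (-(5 / 4) : ℝ)) :=
    (Real.summable_nat_rpow.2 (by norm_num)).mul_left D
  have hsum : ∑' n, μ (B' n) ≠ ⊤ :=
    ne_top_of_le_ne_top hs.tsum_ofReal_ne_top (ENNReal.tsum_le_tsum hb)
  filter_upwards [ae_eventually_notMem hsum] with ω hω
  filter_upwards [hω, eventually_ge_atTop n₀] with n h4 h5 hG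
  simp only [hB', if_pos h5] at h4
  exact (h3 n h5 ω hG h4).mono (hn0.trans h5) hη2

open Classical in
/-- orders two and four: few exceptions -/
theorem few_bad [IsProbabilityMeasure μ] (hA : LimModel μ p κ A) (hp : ∀ i, 0 ≤ p i)
    (hp1 : ∀ i, p i ≤ 1) (hyp : Hyp V G p) {h : ℕ} (hK : 2 * h ≤ κ) {e : ℝ} (he : 0 ≤ e)
    (hhe : (h : ℝ) / 2 + e = 1) {ε : ℝ} (hε : 0 < ε) :
    ∀ᵐ ω ∂μ, ∀ᶠ X : ℕ in atTop,
      (((range (X + 1)).filter fun n => G n ∧ ¬ Many V ε n (A ω)).card : ℝ) ≤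
        (X : ℝ) ^ (e + ε) := by
  set η := min (ε / 4) 1 with hη
  have hη0 : 0 < η := by positivity
  have hη1 : η ≤ 1 := min_le_right _ _
  have hη2 : η ≤ ε / 4 := min_le_left _ _
  obtain ⟨n₀, hn0, B, D, hD, h1, h2, h3⟩ := core hA hp hp1 hyp (h := h) hK (ε := η) hη0 hη1
  set c : ℕ → ℝ := fun n => (n : ℝ) ^ (-(e + ε / 2)) with hc
  have hc0 : ∀ n, 0 ≤ c n := fun n => Real.rpow_nonneg (Nat.cast_nonneg n) _
  set B' : ℕ → Set Ω := fun n => if n₀ ≤ n then B n else ∅ with hB'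
  have hB'm : ∀ n, MeasurableSet (B' n) := by
    intro n
    simp only [hB']
    split_ifs
    · exact h1 n
    · exact MeasurableSet.empty
  set f : Ω → ENNReal := fun ω => ∑' n, (B' n).indicator (fun _ => ENNReal.ofReal (c n)) ω with hf
  have hint : ∫⁻ ω, f ω ∂μ ≠ ⊤ := by
    rw [hf, lintegral_tsum fun n => (measurable_const.indicator (hB'm n)).aemeasurable]
    have hh2 : (h : ℝ) ≤ 2 := by linarith
    have hb : ∀ n, ∫⁻ ω, (B' n).indicator (fun _ => ENNReal.ofReal (c n)) ω ∂μ ≤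
        ENNReal.ofReal (D * (n : ℝ) ^ (-(1 + ε / 4) : ℝ)) := by
      intro n
      rw [lintegral_indicator_const (hB'm n)]
      simp only [hB']
      split_ifs with hn
      · have hn1 : (1 : ℝ) ≤ n := by exact_mod_cast hn0.trans hn
        rw [← ENNReal.ofReal_toReal (measure_ne_top μ (B n)), ← ENNReal.ofReal_mul (hc0 n)]
        apply ENNReal.ofReal_le_ofReal
        calc c n * (μ (B n)).toReal ≤ c n * (D * (n : ℝ) ^ (-(h : ℝ) * (1 / 2 - η / 2))) :=
              mul_le_mul_of_nonneg_left (h2 n hn) (hc0 n)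
          _ = D * (n : ℝ) ^ (-(e + ε / 2) + (-(h : ℝ) * (1 / 2 - η / 2))) := by
              rw [Real.rpow_add (by linarith)]
              simp only [hc]
              ring
          _ ≤ _ := by
              refine mul_le_mul_of_nonneg_left ?_ hD.le
              refine Real.rpow_le_rpow_of_exponent_le hn1 ?_
              have h4 : (h : ℝ) * η ≤ 2 * η := mul_le_mul_of_nonneg_right hh2 hη0.le
              nlinarith
      · simp
    have hs : Summable (fun n : ℕ => D * (n : ℝ) ^ (-(1 + ε / 4) : ℝ)) :=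
      (Real.summable_nat_rpow.2 (by linarith)).mul_left D
    exact ne_top_of_le_ne_top hs.tsum_ofReal_ne_top (ENNReal.tsum_le_tsum hb)
  have hfm : Measurable f := by
    rw [hf]
    exact Measurable.tsum fun n => measurable_const.indicator (hB'm n)
  have hae := ae_lt_top hfm hint
  filter_upwards [hae] with ω hω
  set Y : ℝ := (f ω).toReal with hY
  have hY0 : 0 ≤ Y := ENNReal.toReal_nonneg
  have t1 : Tendsto (fun n : ℕ => (n : ℝ) ^ (ε / 2)) atTop atTop :=
    (tendsto_rpow_atTop (by positivity)).comp tendsto_natCast_atTop_atTop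
  filter_upwards [t1.eventually_ge_atTop (Y + n₀), eventually_ge_atTop 1] with X hX hX1
  have hX0 : (0 : ℝ) < X := by exact_mod_cast hX1
  have hX1' : (1 : ℝ) ≤ X := by exact_mod_cast hX1
  set S : Finset ℕ := (range (X + 1)).filter fun n => ω ∈ B' n with hS
  have hcard : ((range (X + 1)).filter fun n => G n ∧ ¬ Many V ε n (A ω)).card ≤
      S.card + n₀ := by
    refine (card_le_card (t := S ∪ range n₀) ?_).trans ((card_union_le _ _).trans
      (by rw [card_range]))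
    intro n hn
    rw [mem_filter] at hn
    rw [mem_union, mem_range, hS, mem_filter]
    by_cases h4 : n₀ ≤ n
    · left
      refine ⟨hn.1, ?_⟩
      by_contra h5
      simp only [hB', if_pos h4] at h5
      exact hn.2.2 ((h3 n h4 ω hn.2.1 h5).mono (hn0.trans h4) (by linarith))
    · right
      omega
  have hcount : (S.card : ℝ) * (X : ℝ) ^ (-(e + ε / 2)) ≤ Y := by
    have h4 : ∑ n ∈ S, ENNReal.ofReal (c n) ≤ f ω := by
      calc ∑ n ∈ S, ENNReal.ofReal (c n)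
          = ∑ n ∈ S, (B' n).indicator (fun _ => ENNReal.ofReal (c n)) ω := by
            refine sum_congr rfl fun n hn => ?_
            rw [hS, mem_filter] at hn
            rw [Set.indicator_of_mem hn.2]
        _ ≤ f ω := ENNReal.sum_le_tsum S
    have h5 : ∑ n ∈ S, c n ≤ Y := by
      have h6 := ENNReal.toReal_mono hω.ne h4
      rw [ENNReal.toReal_sum (fun n _ => ENNReal.ofReal_ne_top)] at h6
      refine le_trans (le_of_eq ?_) h6
      exact sum_congr rfl fun n _ => (ENNReal.toReal_ofReal (hc0 n)).symm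
    refine le_trans ?_ h5
    rw [← nsmul_eq_mul]
    apply card_nsmul_le_sum
    intro n hn
    rw [hS, mem_filter, mem_range] at hn
    have h6 : n₀ ≤ n := by
      by_contra h7
      have h8 := hn.2
      simp only [hB', if_neg h7] at h8
      exact h8
    have h7 : (0 : ℝ) < n := by exact_mod_cast hn0.trans h6
    have h8 : (n : ℝ) ≤ X := by exact_mod_cast (by omega : n ≤ X)
    simp only [hc]
    exact Real.rpow_le_rpow_of_nonpos h7 h8 (by linarith)
  have h9 : (S.card : ℝ) ≤ Y * (X : ℝ) ^ (e + ε / 2) := by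
    have h10 : 0 < (X : ℝ) ^ (e + ε / 2) := Real.rpow_pos_of_pos hX0 _
    rw [Real.rpow_neg hX0.le] at hcount
    rwa [← div_eq_mul_inv, div_le_iff₀ h10] at hcount
  have h10 : (((range (X + 1)).filter fun n => G n ∧ ¬ Many V ε n (A ω)).card : ℝ) ≤
      S.card + n₀ := by exact_mod_cast hcard
  refine h10.trans ?_
  have h11 : (X : ℝ) ^ (e + ε) = (X : ℝ) ^ (e + ε / 2) * (X : ℝ) ^ (ε / 2) := by
    rw [← Real.rpow_add hX0]
    congr 1
    ring
  have h12 : 1 ≤ (X : ℝ) ^ (e + ε / 2) := Real.one_le_rpow hX1' (by linarith)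
  rw [h11]
  have h13 : (0 : ℝ) ≤ n₀ := Nat.cast_nonneg _
  nlinarith

end Q167.LF
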