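import Pool.Agent.Q106.IV.Three

/-! # The values of many numbers in an arithmetic progression -/

set_option autoImplicit false

namespace Q167.LF

open Finset
open Pool.Agent.Q197.SP.Rf6c (Value)

/-- `N - 1` has exactly three binary digits one -/
def Three (N : ℕ) : Prop := ∃ a b c : ℕ, a ≠ b ∧ a ≠ c ∧ b ≠ c ∧ N = 2 ^ a + 2 ^ b + 2 ^ c + 1

lemma two_set (u v : ℕ) : ∃ s : Finset ℕ, s.card ≤ 2 ∧ ∑ i ∈ s, 2 ^ i = 2 ^ u + 2 ^ u + 2 ^ v := by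
  by_cases h : u + 1 = v
  · refine ⟨{u + 2}, by simp, ?_⟩
    rw [sum_singleton, ← h]
    ring
  · refine ⟨{u + 1, v}, card_le_two, ?_⟩
    rw [sum_pair h]
    ring

lemma three_sum {a b c : ℕ} (h1 : a ≠ b) (h2 : a ≠ c) (h3 : b ≠ c) (f : ℕ → ℕ) :
    ∑ i ∈ ({a, b, c} : Finset ℕ), f i = f a + f b + f c := by
  rw [sum_insert (by simp [h1, h2]), sum_pair h3]
  ring

lemma not_two {a b c u v : ℕ} (h1 : a ≠ b) (h2 : a ≠ c) (h3 : b ≠ c) :
    2 ^ u + 2 ^ u + 2 ^ v ≠ 2 ^ a + 2 ^ b + 2 ^ c := by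
  intro h
  obtain ⟨s, hs, hs2⟩ := two_set u v
  have h4 := three_sum h1 h2 h3 (fun i => 2 ^ i)
  have h5 : ∑ i ∈ s, 2 ^ i = ∑ i ∈ ({a, b, c} : Finset ℕ), 2 ^ i := by
    rw [hs2, h4]
    exact h
  have h6 : s = {a, b, c} := Finset.geomSum_injective (n := 2) le_rfl h5
  have h7 : ({a, b, c} : Finset ℕ).card = 3 := card_eq_three.2 ⟨a, b, c, h1, h2, h3, rfl⟩
  rw [h6, h7] at hs
  omega

lemma exps_ne {a b c x y z : ℕ} (h1 : a ≠ b) (h2 : a ≠ c) (h3 : b ≠ c)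
    (h : 2 ^ x + 2 ^ y + 2 ^ z = 2 ^ a + 2 ^ b + 2 ^ c) : x ≠ y ∧ x ≠ z ∧ y ≠ z := by
  refine ⟨?_, ?_, ?_⟩
  · rintro rfl
    exact not_two h1 h2 h3 h
  · rintro rfl
    exact not_two (u := x) (v := y) h1 h2 h3 (by omega)
  · rintro rfl
    exact not_two (u := y) (v := x) h1 h2 h3 (by omega)

lemma sq_eq {a b c x y z : ℕ} (h1 : a ≠ b) (h2 : a ≠ c) (h3 : b ≠ c)
    (h : 2 ^ x + 2 ^ y + 2 ^ z = 2 ^ a + 2 ^ b + 2 ^ c) :
    x ^ 2 + y ^ 2 + z ^ 2 = a ^ 2 + b ^ 2 + c ^ 2 := by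
  obtain ⟨g1, g2, g3⟩ := exps_ne h1 h2 h3 h
  have h5 : ∑ i ∈ ({x, y, z} : Finset ℕ), 2 ^ i = ∑ i ∈ ({a, b, c} : Finset ℕ), 2 ^ i := by
    rw [three_sum h1 h2 h3 (fun i => 2 ^ i), three_sum g1 g2 g3 (fun i => 2 ^ i)]
    exact h
  have h6 : ({x, y, z} : Finset ℕ) = {a, b, c} := Finset.geomSum_injective (n := 2) le_rfl h5
  rw [← three_sum h1 h2 h3 (fun i => i ^ 2), ← three_sum g1 g2 g3 (fun i => i ^ 2), h6]

/-- the progression -/
def nn (Q L j : ℕ) : ℕ := Q * (4 * L * j + 1)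

lemma uniq {Q L R s w w' j j' : ℕ} (hQ : 0 < Q) (hL : L.Prime) (hRL : R < L)
    (h1 : nn Q L j = s + 4 * w ^ 2) (h2 : nn Q L j' = s + 4 * w' ^ 2)
    (h3 : nn Q L j ≤ R ^ 2) (h4 : nn Q L j' ≤ R ^ 2) : j = j' := by
  have hw : 2 * w < L := by
    by_contra h
    push Not at h
    nlinarith
  have hw' : 2 * w' < L := by
    by_contra h
    push Not at h
    nlinarith
  have hLp : Prime (L : ℤ) := Nat.prime_iff_prime_int.1 hL
  have e1 : (Q : ℤ) * (4 * L * j + 1) = s + 4 * (w : ℤ) ^ 2 := by exact_mod_cast h1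
  have e2 : (Q : ℤ) * (4 * L * j' + 1) = s + 4 * (w' : ℤ) ^ 2 := by exact_mod_cast h2
  have e3 : (L : ℤ) * (Q * ((j : ℤ) - j')) = ((w : ℤ) - w') * (w + w') := by
    have : 4 * ((L : ℤ) * (Q * ((j : ℤ) - j'))) = 4 * (((w : ℤ) - w') * (w + w')) := by
      linear_combination e1 - e2
    linarith
  have e4 : (L : ℤ) ∣ ((w : ℤ) - w') * (w + w') := ⟨_, e3.symm⟩
  have hww : (w : ℤ) = w' := by
    rcases hLp.dvd_or_dvd e4 with h | h
    · have h5 : (w : ℤ) - w' = 0 := by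
        apply Int.eq_zero_of_abs_lt_dvd h
        rw [abs_lt]
        constructor <;> omega
      linarith
    · have h5 : (w : ℤ) + w' = 0 := by
        apply Int.eq_zero_of_abs_lt_dvd h
        rw [abs_lt]
        constructor <;> omega
      omega
  rw [hww, sub_self, zero_mul] at e3
  have hL0 : (L : ℤ) ≠ 0 := by
    have := hL.pos
    omega
  have hQ0 : (Q : ℤ) ≠ 0 := by omega
  have h6 : (j : ℤ) - j' = 0 := by
    rcases mul_eq_zero.1 e3 with h | h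
    · exact absurd h hL0
    · rcases mul_eq_zero.1 h with h | h
      · exact absurd h hQ0
      · exact h
  omega

/-- ordered representations -/
lemma ordered {n N : ℕ} (h : Value n N) : ∃ x y z w : ℕ, n = x ^ 2 + y ^ 2 + z ^ 2 + 4 * w ^ 2 ∧
    N = 2 ^ x + 2 ^ y + 2 ^ z + 1 ∧ x ≤ z ∧ y ≤ z := by
  obtain ⟨x, y, z, w, h1, h2⟩ := h
  by_cases hx : x ≤ z
  · by_cases hy : y ≤ z
    · exact ⟨x, y, z, w, h1, h2, hx, hy⟩
    · exact ⟨x, z, y, w, by omega, by omega, by omega, by omega⟩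
  · by_cases hy : y ≤ x
    · exact ⟨z, y, x, w, by omega, by omega, by omega, by omega⟩
    · exact ⟨x, z, y, w, by omega, by omega, by omega, by omega⟩

/-- the number with the exponents `t` -/
def num (t : (_ : ℕ) × ℕ × ℕ) : ℕ := 2 ^ t.2.1 + 2 ^ t.2.2 + 2 ^ t.1 + 1

/-- every triple of exponents belongs to at most one member of the progression -/
theorem inj_sum {Q L r R : ℕ} (hQ : 0 < Q) (hL : L.Prime) (hRL : R < L)
    (hn : ∀ j ∈ Icc 1 r, nn Q L j ≤ R ^ 2) {g : ℕ → ℝ} (hg : ∀ N, 0 ≤ g N)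
    {W : ℕ → Finset ℕ} (hW : ∀ j ∈ Icc 1 r, ∀ N ∈ W j, Value (nn Q L j) N)
    {F : Finset ((_ : ℕ) × ℕ × ℕ)}
    (hF : ∀ j ∈ Icc 1 r, ∀ x y z w, nn Q L j = x ^ 2 + y ^ 2 + z ^ 2 + 4 * w ^ 2 → x ≤ z → y ≤ z →
      2 ^ x + 2 ^ y + 2 ^ z + 1 ∈ W j → (⟨z, x, y⟩ : (_ : ℕ) × ℕ × ℕ) ∈ F) :
    ∑ j ∈ Icc 1 r, ∑ N ∈ W j, g N ≤ ∑ t ∈ F, g (num t) := by
  classical
  set X : Finset ((_ : ℕ) × ℕ) := (Icc 1 r).sigma W with hX
  have hch : ∀ a : (_ : ℕ) × ℕ, ∃ t : (_ : ℕ) × ℕ × ℕ, a ∈ X →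
      (∃ w, nn Q L a.1 = t.2.1 ^ 2 + t.2.2 ^ 2 + t.1 ^ 2 + 4 * w ^ 2) ∧
        a.2 = num t ∧ t.2.1 ≤ t.1 ∧ t.2.2 ≤ t.1 := by
    intro a
    by_cases ha : a ∈ X
    · rw [hX, mem_sigma] at ha
      obtain ⟨x, y, z, w, h1, h2, h3, h4⟩ := ordered (hW a.1 ha.1 a.2 ha.2)
      exact ⟨⟨z, x, y⟩, fun _ => ⟨⟨w, h1⟩, h2, h3, h4⟩⟩
    · exact ⟨⟨0, 0, 0⟩, fun h => absurd h ha⟩
  choose t ht using hch
  have hinj : Set.InjOn t X := by
    intro a ha a' ha' heq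
    obtain ⟨⟨w, h1⟩, h2, _⟩ := ht a ha
    obtain ⟨⟨w', h1'⟩, h2', _⟩ := ht a' ha'
    rw [← heq] at h1' h2'
    have hma := mem_sigma.1 (mem_coe.1 ha)
    have hma' := mem_sigma.1 (mem_coe.1 ha')
    have h3 : a.1 = a'.1 := uniq hQ hL hRL h1 h1' (hn _ hma.1) (hn _ hma'.1)
    have h4 : a.2 = a'.2 := by rw [h2, h2']
    exact Sigma.ext h3 (heq_of_eq h4)
  have hsub : X.image t ⊆ F := by
    intro u hu
    rw [mem_image] at hu
    obtain ⟨a, ha, rfl⟩ := hu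
    obtain ⟨⟨w, h1⟩, h2, h3, h4⟩ := ht a ha
    have hma := mem_sigma.1 ha
    have h5 := hF a.1 hma.1 (t a).2.1 (t a).2.2 (t a).1 w h1 h3 h4 (by
      have h6 : 2 ^ (t a).2.1 + 2 ^ (t a).2.2 + 2 ^ (t a).1 + 1 = a.2 := h2.symm
      rw [h6]
      exact hma.2)
    exact h5
  calc ∑ j ∈ Icc 1 r, ∑ N ∈ W j, g N = ∑ a ∈ X, g a.2 := by rw [hX, sum_sigma]
    _ = ∑ a ∈ X, g (num (t a)) := sum_congr rfl fun a ha => by rw [← (ht a ha).2.1]
    _ = ∑ u ∈ X.image t, g (num u) := by rw [sum_image hinj]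
    _ ≤ ∑ u ∈ F, g (num u) := sum_le_sum_of_subset_of_nonneg hsub fun u _ _ => hg _

/-- all triples -/
def FA (R : ℕ) : Finset ((_ : ℕ) × ℕ × ℕ) :=
  (range (R + 1)).sigma fun z => range (z + 1) ×ˢ range (z + 1)

/-- the triples with two equal members -/
def FB (R : ℕ) : Finset ((_ : ℕ) × ℕ × ℕ) :=
  (range (R + 1)).sigma fun z => (range (z + 1) ×ˢ range (z + 1)).filter
    fun t => t.1 = t.2 ∨ t.1 = z ∨ t.2 = z

lemma sum_FA {R : ℕ} {g : ℕ → ℝ} {C : ℝ} (hC : 0 ≤ C)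
    (hg : ∀ t : (_ : ℕ) × ℕ × ℕ, g (num t) ≤ C / ((t.1 : ℝ) + 1)) :
    ∑ t ∈ FA R, g (num t) ≤ C * ((R : ℝ) + 1) ^ 2 := by
  unfold FA
  rw [sum_sigma]
  have h1 : ∀ z ∈ range (R + 1), ∑ t ∈ range (z + 1) ×ˢ range (z + 1), g (num ⟨z, t⟩) ≤
      C * ((R : ℝ) + 1) := by
    intro z hz
    have hz' : (z : ℝ) + 1 ≤ (R : ℝ) + 1 := by
      have := mem_range.1 hz
      have h2 : z ≤ R := by omega
      have h3 : (z : ℝ) ≤ R := by exact_mod_cast h2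
      linarith
    have hz0 : (0 : ℝ) < (z : ℝ) + 1 := by positivity
    calc ∑ t ∈ range (z + 1) ×ˢ range (z + 1), g (num ⟨z, t⟩)
        ≤ ∑ _t ∈ range (z + 1) ×ˢ range (z + 1), C / ((z : ℝ) + 1) :=
          sum_le_sum fun t _ => hg ⟨z, t⟩
      _ = C * ((z : ℝ) + 1) := by
          rw [sum_const, card_product, card_range, nsmul_eq_mul]
          push_cast
          field_simp
      _ ≤ _ := mul_le_mul_of_nonneg_left hz' hC
  refine (sum_le_sum h1).trans (le_of_eq ?_)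
  rw [sum_const, card_range, nsmul_eq_mul]
  push_cast
  ring

lemma card_FB_fiber (z : ℕ) : ((range (z + 1) ×ˢ range (z + 1)).filter
    fun t => t.1 = t.2 ∨ t.1 = z ∨ t.2 = z).card ≤ 3 * (z + 1) := by
  classical
  have h : ((range (z + 1) ×ˢ range (z + 1)).filter
      fun t => t.1 = t.2 ∨ t.1 = z ∨ t.2 = z) ⊆
      ((range (z + 1)).image fun x => (x, x)) ∪ (((range (z + 1)).image fun x => (z, x)) ∪
        ((range (z + 1)).image fun x => (x, z))) := by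
    rintro ⟨x, y⟩ ht
    rw [mem_filter, mem_product, mem_range, mem_range] at ht
    simp only [mem_union, mem_image, mem_range, Prod.mk.injEq]
    obtain ⟨⟨h1, h2⟩, h3⟩ := ht
    simp only at h1 h2 h3
    rcases h3 with h3 | h3 | h3
    · exact Or.inl ⟨x, h1, rfl, h3⟩
    · exact Or.inr (Or.inl ⟨y, h2, h3.symm, rfl⟩)
    · exact Or.inr (Or.inr ⟨x, h1, rfl, h3.symm⟩)
  refine (card_le_card h).trans ?_
  refine (card_union_le _ _).trans ?_
  have h1 := card_union_le ((range (z + 1)).image fun x => (z, x))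
    ((range (z + 1)).image fun x => (x, z))
  have h2 : ((range (z + 1)).image fun x => (x, x)).card ≤ z + 1 :=
    card_image_le.trans (by rw [card_range])
  have h3 : ((range (z + 1)).image fun x => (z, x)).card ≤ z + 1 :=
    card_image_le.trans (by rw [card_range])
  have h4 : ((range (z + 1)).image fun x => (x, z)).card ≤ z + 1 :=
    card_image_le.trans (by rw [card_range])
  omega

lemma sum_FB {R : ℕ} {g : ℕ → ℝ} {C : ℝ} (hC : 0 ≤ C)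
    (hg : ∀ t : (_ : ℕ) × ℕ × ℕ, g (num t) ≤ C / ((t.1 : ℝ) + 1)) :
    ∑ t ∈ FB R, g (num t) ≤ 3 * C * ((R : ℝ) + 1) := by
  unfold FB
  rw [sum_sigma]
  have h1 : ∀ z ∈ range (R + 1), ∑ t ∈ (range (z + 1) ×ˢ range (z + 1)).filter
      (fun t => t.1 = t.2 ∨ t.1 = z ∨ t.2 = z), g (num ⟨z, t⟩) ≤ 3 * C := by
    intro z _
    have hz0 : (0 : ℝ) < (z : ℝ) + 1 := by positivity
    have hc : ((((range (z + 1) ×ˢ range (z + 1)).filter
      fun t => t.1 = t.2 ∨ t.1 = z ∨ t.2 = z).card : ℕ) : ℝ) ≤ 3 * ((z : ℝ) + 1) := by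
      exact_mod_cast card_FB_fiber z
    calc ∑ t ∈ (range (z + 1) ×ˢ range (z + 1)).filter
          (fun t => t.1 = t.2 ∨ t.1 = z ∨ t.2 = z), g (num ⟨z, t⟩)
        ≤ ∑ _t ∈ (range (z + 1) ×ˢ range (z + 1)).filter
          (fun t => t.1 = t.2 ∨ t.1 = z ∨ t.2 = z), C / ((z : ℝ) + 1) :=
          sum_le_sum fun t _ => hg ⟨z, t⟩
      _ ≤ 3 * ((z : ℝ) + 1) * (C / ((z : ℝ) + 1)) := by
          rw [sum_const, nsmul_eq_mul]
          exact mul_le_mul_of_nonneg_right hc (by positivity)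
      _ = 3 * C := by field_simp
  refine (sum_le_sum h1).trans (le_of_eq ?_)
  rw [sum_const, card_range, nsmul_eq_mul]
  push_cast
  ring

lemma card_FA_le (T : ℕ) : ((FA T).filter fun t => num t < T).card ≤ (T + 1) ^ 3 := by
  classical
  have h : (FA T).card ≤ (T + 1) ^ 3 := by
    unfold FA
    rw [card_sigma]
    calc ∑ z ∈ range (T + 1), (range (z + 1) ×ˢ range (z + 1)).card
        ≤ ∑ _z ∈ range (T + 1), (T + 1) ^ 2 := by
          refine sum_le_sum fun z hz => ?_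
          rw [card_product, card_range, ← sq]
          have := mem_range.1 hz
          exact Nat.pow_le_pow_left (by omega) 2
      _ = (T + 1) ^ 3 := by
          rw [sum_const, card_range, smul_eq_mul]
          ring
  exact (card_filter_le _ _).trans h

end Q167.LF
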