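import Pool.Agent.Q167.LF.D

/-! # Many numbers with nearly disjoint value sets of bounded size -/

set_option autoImplicit false

namespace Q167.LF

open Finset
open Pool.Agent.Q197.SP.Rf6c (Value)

open Classical in
/-- the values of `n` -/
noncomputable def VS (n : ℕ) : Finset ℕ := (range (2 ^ (2 * Nat.sqrt n + 4))).filter (Value n)

lemma mem_VS {n N : ℕ} : N ∈ VS n ↔ Value n N := by
  classical
  unfold VS
  rw [mem_filter, mem_range]
  exact ⟨fun h => h.2, fun h => ⟨Pool.Agent.Q106.IV.Value.lt h, h⟩⟩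

open Classical in
/-- the values with three different exponents -/
noncomputable def VB (n : ℕ) : Finset ℕ := (VS n).filter Three

open Classical in
/-- the other values -/
noncomputable def VD (n : ℕ) : Finset ℕ := (VS n).filter fun N => ¬ Three N

lemma mem_VB {n N : ℕ} : N ∈ VB n ↔ Value n N ∧ Three N := by
  classical
  unfold VB
  rw [mem_filter, mem_VS]

lemma mem_VD {n N : ℕ} : N ∈ VD n ↔ Value n N ∧ ¬ Three N := by
  classical
  unfold VD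
  rw [mem_filter, mem_VS]

lemma VB_disj {Q L R j j' : ℕ} (hQ : 0 < Q) (hL : L.Prime) (hRL : R < L)
    (h3 : nn Q L j ≤ R ^ 2) (h4 : nn Q L j' ≤ R ^ 2) {N : ℕ} (h : N ∈ VB (nn Q L j))
    (h' : N ∈ VB (nn Q L j')) : j = j' := by
  rw [mem_VB] at h h'
  obtain ⟨⟨x, y, z, w, e1, e2⟩, a, b, c, g1, g2, g3, g4⟩ := h
  obtain ⟨⟨x', y', z', w', e1', e2'⟩, _⟩ := h'
  have f1 := sq_eq g1 g2 g3 (x := x) (y := y) (z := z) (by omega)
  have f2 := sq_eq g1 g2 g3 (x := x') (y := y') (z := z') (by omega)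
  rw [f1] at e1
  rw [f2] at e1'
  exact uniq hQ hL hRL e1 e1' h3 h4

/-- the selection -/
theorem sel {Q : ℕ} (hQ : 0 < Q) {p : ℕ → ℝ} (hp : ∀ N, 0 ≤ p N) {C : ℝ} (hC : 0 ≤ C)
    (hpC : ∀ t : (_ : ℕ) × ℕ × ℕ, p (num t) ≤ C / ((t.1 : ℝ) + 1)) :
    ∃ K : ℝ, 1 ≤ K ∧ ∀ T : ℕ, ∃ (L r : ℕ) (J : Finset ℕ), 1 ≤ r ∧ (r : ℝ) / 2 ≤ J.card ∧
      (∀ j ∈ J, (T ≤ nn Q L j ∧ 1 ≤ j ∧ 36 * j ^ 2 ≤ nn Q L j) ∧
        (∀ N, Value (nn Q L j) N → T ≤ N) ∧
        ∑ N ∈ VB (nn Q L j), p N ≤ K * r ∧ ∑ N ∈ VD (nn Q L j), p N ≤ K) ∧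
      ∀ j ∈ J, ∀ j' ∈ J, ∀ N, N ∈ VB (nn Q L j) → N ∈ VB (nn Q L j') → j = j' := by
  classical
  refine ⟨1 + 800 * C * (Q : ℝ) ^ 2, by nlinarith [mul_nonneg hC (sq_nonneg (Q : ℝ))],
    fun T => ?_⟩
  set K : ℝ := 1 + 800 * C * (Q : ℝ) ^ 2 with hK
  have hQ1 : (1 : ℝ) ≤ Q := by exact_mod_cast hQ
  have hCQ : 0 ≤ C * (Q : ℝ) ^ 2 := mul_nonneg hC (sq_nonneg _)
  have hK0 : 0 < K := by rw [hK]; nlinarith
  obtain ⟨r, hr⟩ : ∃ r : ℕ, r = 8 * (T + 1) ^ 3 := ⟨_, rfl⟩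
  have hT3 : 1 ≤ (T + 1) ^ 3 := Nat.one_le_pow _ _ (by omega)
  have hTr : T ≤ r := by
    have h1 : T + 1 ≤ (T + 1) ^ 3 := Nat.le_self_pow (by norm_num) _
    omega
  have hr1 : 1 ≤ r := by omega
  obtain ⟨R, hR⟩ : ∃ R : ℕ, R = 9 * Q * r := ⟨_, rfl⟩
  have hRr : 9 * r ≤ R := by
    rw [hR]
    have : 9 * r * 1 ≤ 9 * r * Q := Nat.mul_le_mul_left _ hQ
    nlinarith
  obtain ⟨L, hL, hRL, hL2⟩ := Nat.exists_prime_lt_and_le_two_mul R (by omega)
  have hn : ∀ j ∈ Icc 1 r, nn Q L j ≤ R ^ 2 := by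
    intro j hj
    rw [mem_Icc] at hj
    unfold nn
    have h1 : L * j ≤ 2 * R * r := Nat.mul_le_mul hL2 hj.2
    have h2 : Q * (4 * L * j + 1) ≤ Q * (8 * (R * r) + 1) := by
      apply Nat.mul_le_mul_left
      nlinarith
    have h3 : 1 ≤ R * r := Nat.mul_pos (by omega) hr1
    have h4 : Q * (8 * (R * r) + 1) ≤ Q * (9 * (R * r)) := Nat.mul_le_mul_left _ (by omega)
    have h5 : Q * (9 * (R * r)) = R ^ 2 := by
      calc Q * (9 * (R * r)) = (9 * Q * r) * R := by ring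
        _ = R ^ 2 := by rw [← hR]; ring
    omega
  have hzR : ∀ j ∈ Icc 1 r, ∀ x y z w, nn Q L j = x ^ 2 + y ^ 2 + z ^ 2 + 4 * w ^ 2 → z ≤ R := by
    intro j hj x y z w h
    have h1 := hn j hj
    by_contra h2
    push Not at h2
    nlinarith
  have hr0 : (0 : ℝ) < r := by exact_mod_cast hr1
  have hr1' : (1 : ℝ) ≤ r := by exact_mod_cast hr1
  have hRle : (R : ℝ) + 1 ≤ 10 * Q * r := by
    rw [hR]
    push_cast
    have : (1 : ℝ) ≤ Q * r := by nlinarith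
    nlinarith
  have hRr0 : (0 : ℝ) ≤ (R : ℝ) + 1 := by positivity
  -- the three sums
  have s1 : ∑ j ∈ Icc 1 r, ∑ N ∈ VB (nn Q L j), p N ≤ C * (10 * Q * r) ^ 2 := by
    refine (inj_sum hQ hL hRL hn hp (F := FA R) (fun j _ N hN => (mem_VB.1 hN).1) ?_).trans
      ((sum_FA hC hpC).trans (mul_le_mul_of_nonneg_left (pow_le_pow_left₀ hRr0 hRle 2) hC))
    intro j hj x y z w h1 h2 h3 _
    unfold FA
    rw [mem_sigma, mem_range, mem_product, mem_range, mem_range]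
    have := hzR j hj x y z w h1
    refine ⟨?_, ?_, ?_⟩ <;> simp only <;> omega
  have s2 : ∑ j ∈ Icc 1 r, ∑ N ∈ VD (nn Q L j), p N ≤ 3 * C * (10 * Q * r) := by
    refine (inj_sum hQ hL hRL hn hp (F := FB R) (fun j _ N hN => (mem_VD.1 hN).1) ?_).trans
      ((sum_FB hC hpC).trans (mul_le_mul_of_nonneg_left hRle (by positivity)))
    intro j hj x y z w h1 h2 h3 h4
    have h5 := (mem_VD.1 h4).2
    unfold FB
    rw [mem_sigma, mem_range, mem_filter, mem_product, mem_range, mem_range]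
    have := hzR j hj x y z w h1
    refine ⟨?_, ⟨?_, ?_⟩, ?_⟩
    · simp only; omega
    · simp only; omega
    · simp only; omega
    · simp only
      by_contra h6
      push Not at h6
      exact h5 ⟨x, y, z, h6.1, h6.2.1, h6.2.2, rfl⟩
  have s3 : ∑ j ∈ Icc 1 r, ∑ _N ∈ (VS (nn Q L j)).filter (fun N => N < T), (1 : ℝ) ≤
      ((T : ℝ) + 1) ^ 3 := by
    refine (inj_sum hQ hL hRL hn (g := fun _ => 1) (fun _ => zero_le_one)
      (F := (FA T).filter fun t => num t < T)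
      (fun j _ N hN => mem_VS.1 (mem_filter.1 hN).1) ?_).trans ?_
    · intro j hj x y z w h1 h2 h3 h4
      have h5 := (mem_filter.1 h4).2
      have h6 : z < 2 ^ z := Nat.lt_two_pow_self
      have h7 : z < T := by
        have g1 : 0 < 2 ^ x := Nat.two_pow_pos x
        have g2 : 0 < 2 ^ y := Nat.two_pow_pos y
        omega
      rw [mem_filter]
      refine ⟨?_, h5⟩
      unfold FA
      rw [mem_sigma, mem_range, mem_product, mem_range, mem_range]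
      refine ⟨?_, ?_, ?_⟩ <;> simp only <;> omega
    · rw [sum_const, nsmul_eq_mul, mul_one]
      exact_mod_cast card_FA_le T
  -- the exceptional sets
  set E1 := (Icc 1 r).filter (fun j => ¬ ∑ N ∈ VB (nn Q L j), p N ≤ K * r) with hE1
  set E2 := (Icc 1 r).filter (fun j => ¬ ∑ N ∈ VD (nn Q L j), p N ≤ K) with hE2
  set E3 := (Icc 1 r).filter (fun j => ¬ ∀ N, Value (nn Q L j) N → T ≤ N) with hE3
  have c1 : (E1.card : ℝ) ≤ r / 8 := by
    have h1 : E1.card • (K * r) ≤ ∑ j ∈ E1, ∑ N ∈ VB (nn Q L j), p N :=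
      card_nsmul_le_sum _ _ _ fun j hj => (not_le.1 (mem_filter.1 hj).2).le
    have h2 : ∑ j ∈ E1, ∑ N ∈ VB (nn Q L j), p N ≤ ∑ j ∈ Icc 1 r, ∑ N ∈ VB (nn Q L j), p N :=
      sum_le_sum_of_subset_of_nonneg (filter_subset _ _) fun j _ _ => sum_nonneg fun N _ => hp N
    rw [nsmul_eq_mul] at h1
    have h3 : (E1.card : ℝ) * (K * r) ≤ C * (10 * Q * r) ^ 2 := h1.trans (h2.trans s1)
    have h4 : C * (10 * (Q : ℝ) * r) ^ 2 ≤ (r / 8) * (K * r) := by
      rw [hK]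
      nlinarith [mul_pos hr0 hr0]
    exact le_of_mul_le_mul_right (h3.trans h4) (by positivity)
  have c2 : (E2.card : ℝ) ≤ r / 8 := by
    have h1 : E2.card • K ≤ ∑ j ∈ E2, ∑ N ∈ VD (nn Q L j), p N :=
      card_nsmul_le_sum _ _ _ fun j hj => (not_le.1 (mem_filter.1 hj).2).le
    have h2 : ∑ j ∈ E2, ∑ N ∈ VD (nn Q L j), p N ≤ ∑ j ∈ Icc 1 r, ∑ N ∈ VD (nn Q L j), p N :=
      sum_le_sum_of_subset_of_nonneg (filter_subset _ _) fun j _ _ => sum_nonneg fun N _ => hp N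
    rw [nsmul_eq_mul] at h1
    have h3 : (E2.card : ℝ) * K ≤ 3 * C * (10 * Q * r) := h1.trans (h2.trans s2)
    have h4 : 3 * C * (10 * (Q : ℝ) * r) ≤ (r / 8) * K := by
      rw [hK]
      have h5 : C * (Q : ℝ) ≤ C * (Q : ℝ) ^ 2 := mul_le_mul_of_nonneg_left (by nlinarith) hC
      nlinarith [mul_le_mul_of_nonneg_right h5 hr0.le]
    exact le_of_mul_le_mul_right (h3.trans h4) hK0
  have c3 : (E3.card : ℝ) ≤ r / 8 := by
    have h1 : E3.card • (1 : ℝ) ≤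
        ∑ j ∈ E3, ∑ _N ∈ (VS (nn Q L j)).filter (fun N => N < T), (1 : ℝ) := by
      refine card_nsmul_le_sum _ _ _ fun j hj => ?_
      have h2 := (mem_filter.1 hj).2
      push Not at h2
      obtain ⟨N, h3, h4⟩ := h2
      rw [sum_const, nsmul_eq_mul, mul_one]
      have h5 : 0 < ((VS (nn Q L j)).filter (fun N => N < T)).card :=
        card_pos.2 ⟨N, mem_filter.2 ⟨mem_VS.2 h3, h4⟩⟩
      exact_mod_cast h5
    have h2 : ∑ j ∈ E3, ∑ _N ∈ (VS (nn Q L j)).filter (fun N => N < T), (1 : ℝ) ≤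
        ∑ j ∈ Icc 1 r, ∑ _N ∈ (VS (nn Q L j)).filter (fun N => N < T), (1 : ℝ) :=
      sum_le_sum_of_subset_of_nonneg (filter_subset _ _) fun j _ _ =>
        sum_nonneg fun N _ => zero_le_one
    rw [nsmul_eq_mul, mul_one] at h1
    have h3 := h1.trans (h2.trans s3)
    have h4 : ((T : ℝ) + 1) ^ 3 = r / 8 := by
      rw [hr]
      push_cast
      ring
    rw [← h4]
    exact h3
  refine ⟨L, r, (Icc 1 r).filter (fun j => (∑ N ∈ VB (nn Q L j), p N ≤ K * r ∧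
    ∑ N ∈ VD (nn Q L j), p N ≤ K) ∧ ∀ N, Value (nn Q L j) N → T ≤ N), hr1, ?_, ?_, ?_⟩
  · have h1 : Icc 1 r ⊆ ((Icc 1 r).filter (fun j => (∑ N ∈ VB (nn Q L j), p N ≤ K * r ∧
        ∑ N ∈ VD (nn Q L j), p N ≤ K) ∧ ∀ N, Value (nn Q L j) N → T ≤ N)) ∪
        (E1 ∪ (E2 ∪ E3)) := by
      intro j hj
      by_cases h1 : ∑ N ∈ VB (nn Q L j), p N ≤ K * r
      · by_cases h2 : ∑ N ∈ VD (nn Q L j), p N ≤ K
        · by_cases h3 : ∀ N, Value (nn Q L j) N → T ≤ N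
          · exact mem_union_left _ (mem_filter.2 ⟨hj, ⟨h1, h2⟩, h3⟩)
          · exact mem_union_right _ (mem_union_right _ (mem_union_right _
              (mem_filter.2 ⟨hj, h3⟩)))
        · exact mem_union_right _ (mem_union_right _ (mem_union_left _ (mem_filter.2 ⟨hj, h2⟩)))
      · exact mem_union_right _ (mem_union_left _ (mem_filter.2 ⟨hj, h1⟩))
    have h2 := card_le_card h1
    have h3 := h2.trans ((card_union_le _ _).trans (Nat.add_le_add_left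
      ((card_union_le _ _).trans (Nat.add_le_add_left (card_union_le _ _) _)) _))
    rw [Nat.card_Icc, Nat.add_sub_cancel] at h3
    have h4 : (r : ℝ) ≤ (((Icc 1 r).filter (fun j => (∑ N ∈ VB (nn Q L j), p N ≤ K * r ∧
        ∑ N ∈ VD (nn Q L j), p N ≤ K) ∧ ∀ N, Value (nn Q L j) N → T ≤ N)).card : ℝ) +
        ((E1.card : ℝ) + ((E2.card : ℝ) + E3.card)) := by exact_mod_cast h3
    linarith
  · intro j hj
    rw [mem_filter, mem_Icc] at hj
    have h3 : 1 * (4 * L * j + 1) ≤ Q * (4 * L * j + 1) := Nat.mul_le_mul_right _ hQ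
    refine ⟨⟨?_, hj.1.1, ?_⟩, hj.2.2, hj.2.1.1, hj.2.1.2⟩
    · unfold nn
      have h2 : L * 1 ≤ L * j := Nat.mul_le_mul_left _ hj.1.1
      nlinarith
    · unfold nn
      have h2 : 9 * j ≤ L := by omega
      have h4 : 9 * j * j ≤ L * j := Nat.mul_le_mul_right _ h2
      nlinarith
  · intro j hj j' hj' N h1 h2
    rw [mem_filter] at hj hj'
    exact VB_disj hQ hL hRL (hn j hj.1) (hn j' hj'.1) h1 h2

end Q167.LF
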