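import Pool.Agent.Q167.LF.A
import Pool.Agent.Q167.LF.B
import Pool.Agent.Q198.CI.Glue

/-! # Gluing laws on blocks; events at many scales -/

set_option autoImplicit false

namespace Q167.LF

open Finset MeasureTheory Filter Q198.CI Q167.WK
open scoped Topology

lemma bm_real {I : Finset ℕ} {K : ℕ} {p : ℕ → ℝ} {w : Finset ℕ → ℝ} (h : IsLaw I K p w)
    (C : Finset ℕ → Prop) [DecidablePred C] :
    (bm I w).real {S | C S} = ∑ S ∈ I.powerset with C S, w S := by
  have h1 : bm I w {S | C S} = ENNReal.ofReal (∑ S ∈ I.powerset with C S, w S) := by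
    rw [bm_apply, sum_filter, ENNReal.ofReal_sum_of_nonneg]
    · refine sum_congr rfl fun S _ => ?_
      by_cases hS : C S
      · rw [if_pos hS, Set.indicator_of_mem (by exact hS)]
        simp
      · rw [if_neg hS, Set.indicator_of_notMem (by exact hS)]
        simp
    · intro S hS
      split_ifs
      · exact h.1 S (mem_powerset.1 hS)
      · exact le_rfl
  rw [measureReal_def, h1, ENNReal.toReal_ofReal]
  exact sum_nonneg fun S hS => h.1 S (mem_powerset.1 (mem_filter.1 hS).1)

/-- gluing independent blocks -/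
theorem glue2 {B : Type} [DecidableEq B] (b : ℕ → B) (I : B → Finset ℕ)
    (hI : ∀ n β, n ∈ I β ↔ b n = β) (K : ℕ) {p : ℕ → ℝ} (hp : ∀ n, 0 ≤ p n)
    (w : B → Finset ℕ → ℝ) (hw : ∀ β, IsLaw (I β) K p (w β)) :
    ∃ (P : Measure (B → Finset ℕ)) (_ : IsProbabilityMeasure P) (A : (B → Finset ℕ) → Set ℕ),
      LimModel P p K A ∧ (∀ ω n, n ∈ A ω ↔ n ∈ ω (b n)) ∧
      ∀ (s : Finset B) (C : B → Finset ℕ → Prop),
        MeasurableSet {ω : B → Finset ℕ | ∀ β ∈ s, C β (ω β)} ∧
        P.real {ω | ∀ β ∈ s, C β (ω β)} = ∏ β ∈ s, (bm (I β) (w β)).real {S | C β S} := by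
  classical
  have : ∀ β, IsProbabilityMeasure (bm (I β) (w β)) := fun β => bm_prob (hw β)
  refine ⟨Measure.infinitePi (fun β => bm (I β) (w β)), inferInstance,
    fun ω => {n | n ∈ ω (b n)}, ⟨?_, ?_⟩, fun ω n => Iff.rfl, ?_⟩
  · intro n
    have h1 : MeasurableSet {S : Finset ℕ | n ∈ S} := MeasurableSet.of_discrete
    have h2 : Measurable (fun ω : B → Finset ℕ => ω (b n)) := measurable_pi_apply (b n)
    exact h2 h1
  · intro T hT
    have e : {ω : B → Finset ℕ | ∀ n ∈ T, n ∈ {n | n ∈ ω (b n)}} =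
        Set.pi (T.image b : Finset B)
          (fun β => {S : Finset ℕ | T.filter (fun n => b n = β) ⊆ S}) := by
      ext ω
      simp only [Set.mem_ofPred_eq, Set.mem_pi, coe_image, Set.mem_image, mem_coe]
      constructor
      · rintro h β ⟨m, hm, rfl⟩ n hn
        rw [mem_filter] at hn
        have := h n hn.1
        rw [hn.2] at this
        exact this
      · intro h n hn
        exact h (b n) ⟨n, hn, rfl⟩ (mem_filter.2 ⟨hn, rfl⟩)
    rw [measureReal_def, e, Measure.infinitePi_pi _ (fun β _ => MeasurableSet.of_discrete)]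
    have h1 : ∀ β ∈ T.image b, bm (I β) (w β) {S : Finset ℕ | T.filter (fun n => b n = β) ⊆ S} =
        ENNReal.ofReal (∏ n ∈ T.filter (fun n => b n = β), p n) := by
      intro β hβ
      rw [mem_image] at hβ
      obtain ⟨m, hm, rfl⟩ := hβ
      apply bm_superset (hw (b m))
      · intro n hn
        rw [mem_filter] at hn
        exact (hI n (b m)).2 hn.2
      · exact (card_filter_le _ _).trans hT
    rw [prod_congr rfl h1, ← ENNReal.ofReal_prod_of_nonneg (fun β _ => prod_nonneg fun n _ => hp n),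
      ENNReal.toReal_ofReal (prod_nonneg fun β _ => prod_nonneg fun n _ => hp n)]
    exact prod_fiberwise_of_maps_to (fun n hn => mem_image_of_mem b hn) p
  · intro s C
    have e : {ω : B → Finset ℕ | ∀ β ∈ s, C β (ω β)} =
        Set.pi (s : Set B) (fun β => {S : Finset ℕ | C β S}) := by
      ext ω
      simp only [Set.mem_ofPred_eq, Set.mem_pi, mem_coe]
    rw [e]
    constructor
    · exact MeasurableSet.pi s.countable_toSet fun β _ => MeasurableSet.of_discrete
    · rw [measureReal_def, Measure.infinitePi_pi _ (fun β _ => MeasurableSet.of_discrete),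
        ENNReal.toReal_prod]
      rfl

lemma law_total {I : Finset ℕ} {K : ℕ} {p : ℕ → ℝ} {w : Finset ℕ → ℝ} (h : IsLaw I K p w) :
    ∑ S ∈ I.powerset, w S = 1 := by
  have h1 := h.2 ∅ (empty_subset _) (by simp)
  rw [prod_empty] at h1
  rw [← h1]
  refine sum_congr ?_ fun _ _ => rfl
  ext S
  simp

/-- one scale -/
theorem scale_law {p : ℕ → ℝ} (hp : ∀ n, 0 ≤ p n) (hp1 : ∀ n, p n ≤ 1) {J : Finset ℕ}
    {B D : ℕ → Finset ℕ} {K δ : ℝ} (hBB : ∀ j ∈ J, ∀ j' ∈ J, ∀ n, n ∈ B j → n ∈ B j' → j = j')
    (hBD : ∀ j ∈ J, ∀ j' ∈ J, ∀ n, n ∈ B j → n ∉ D j')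
    (hlaw : ∀ j ∈ J, ∃ w : Finset ℕ → ℝ, IsLaw (B j) 3 p w ∧ δ ≤ w ∅)
    (hD : ∀ j ∈ J, ∀ n ∈ D j, p n ≤ 1 / 2) (hDs : ∀ j ∈ J, ∑ n ∈ D j, p n ≤ K)
    {G : Finset ℕ} {Good : Finset ℕ → Prop} [DecidablePred Good]
    (hG : ∀ S ⊆ G, (∃ j ∈ J, ∀ n, n ∈ B j ∨ n ∈ D j → n ∉ S) → Good S) :
    ∃ v : Finset ℕ → ℝ, IsLaw G 3 p v ∧
      Real.exp (-2 * K) * (1 - (1 - δ) ^ J.card) ≤ ∑ S ∈ G.powerset with Good S, v S := by
  classical
  set good : ℕ → ℕ → Prop := fun n j => j ∈ J ∧ n ∈ B j with hgood
  have huniq : ∀ n j j', good n j → good n j' → j = j' := fun n j j' h1 h2 =>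
    hBB j h1.1 j' h2.1 n h1.2 h2.2
  set b : ℕ → ℕ ⊕ ℕ := fun n => if h : ∃ j, good n j then Sum.inl h.choose else Sum.inr n with hb
  have hbB : ∀ j ∈ J, ∀ n ∈ B j, b n = Sum.inl j := by
    intro j hj n hn
    have hex : ∃ j, good n j := ⟨j, hj, hn⟩
    simp only [hb]
    rw [dif_pos hex]
    exact congrArg Sum.inl (huniq n _ _ hex.choose_spec ⟨hj, hn⟩)
  have hbD : ∀ j ∈ J, ∀ n ∈ D j, b n = Sum.inr n := by
    intro j hj n hn
    simp only [hb]
    rw [dif_neg]
    rintro ⟨j', hj', hn'⟩
    exact hBD j' hj' j hj n hn' hn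
  set I : ℕ ⊕ ℕ → Finset ℕ := fun β => match β with
    | Sum.inl j => if j ∈ J then B j else ∅
    | Sum.inr n => if ∃ j, good n j then ∅ else {n} with hI
  have hbI : ∀ n β, n ∈ I β ↔ b n = β := by
    intro n β
    rcases β with j | n'
    · simp only [hI]
      constructor
      · intro h
        split_ifs at h with h1
        · exact hbB j h1 n h
        · simp at h
      · intro h
        simp only [hb] at h
        split_ifs at h with h1
        have h2 := h1.choose_spec
        have h3 : h1.choose = j := Sum.inl_injective h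
        rw [h3] at h2
        rw [if_pos h2.1]
        exact h2.2
    · simp only [hI, hb]
      constructor
      · intro h
        split_ifs at h with h1
        · simp at h
        · rw [mem_singleton] at h
          subst h
          rw [dif_neg h1]
      · intro h
        split_ifs at h with h1
        have h3 : n = n' := Sum.inr_injective h
        subst h3
        rw [if_neg h1, mem_singleton]
  have hex : ∀ β, ∃ w : Finset ℕ → ℝ, IsLaw (I β) 3 p w ∧
      (∀ j ∈ J, β = Sum.inl j → δ ≤ w ∅) ∧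
      (∀ n, β = Sum.inr n → w = fun S => (∏ i ∈ S, p i) * ∏ i ∈ I β \ S, (1 - p i)) := by
    intro β
    rcases β with j | n
    · by_cases hj : j ∈ J
      · obtain ⟨w, hw1, hw2⟩ := hlaw j hj
        refine ⟨w, ?_, ?_, ?_⟩
        · simp only [hI, if_pos hj]
          exact hw1
        · intro j' _ _
          exact hw2
        · intro n h
          cases h
      · refine ⟨_, law_prod _ hp hp1 _, ?_, ?_⟩
        · intro j' hj' h
          rw [← Sum.inl_injective h] at hj'
          exact absurd hj' hj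
        · intro n h
          cases h
    · refine ⟨_, law_prod _ hp hp1 _, ?_, ?_⟩
      · intro j' _ h
        cases h
      · intro n' _
        rfl
  choose w hw1 hw2 hw3 using hex
  obtain ⟨P, hP, A, hA, hAb, hbox⟩ := glue2 b I hbI 3 hp w hw1
  -- the events
  set x : ℕ → ℝ := fun j => w (Sum.inl j) ∅ with hx
  set s : ℕ → Finset (ℕ ⊕ ℕ) := fun j =>
    (J.filter fun j' => j' ≤ j).image Sum.inl ∪ (D j).image Sum.inr with hs
  set C : ℕ → ℕ ⊕ ℕ → Finset ℕ → Prop := fun j β S => match β with
    | Sum.inl j' => if j' = j then S = ∅ else S ≠ ∅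
    | Sum.inr n => n ∉ S with hC
  set X : ℕ → Set (ℕ ⊕ ℕ → Finset ℕ) := fun j => {ω | ∀ β ∈ s j, C j β (ω β)} with hX
  have hXm : ∀ j, MeasurableSet (X j) := fun j => (hbox (s j) (C j)).1
  have hx1 : ∀ j, x j ≤ 1 := by
    intro j
    rw [← law_total (hw1 (Sum.inl j))]
    exact single_le_sum (fun S hS => (hw1 (Sum.inl j)).1 S (mem_powerset.1 hS))
      (empty_mem_powerset _)
  have hXp : ∀ j ∈ J, Real.exp (-2 * K) * (x j * ∏ j' ∈ J with j' < j, (1 - x j')) ≤
      P.real (X j) := by
    intro j hj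
    rw [hX]
    simp only
    rw [(hbox (s j) (C j)).2, hs]
    simp only
    rw [prod_union]
    · rw [prod_image Sum.inl_injective.injOn, prod_image Sum.inr_injective.injOn]
      have e1 : ∏ j' ∈ J with j' ≤ j, (bm (I (Sum.inl j')) (w (Sum.inl j'))).real
          {S | C j (Sum.inl j') S} = x j * ∏ j' ∈ J with j' < j, (1 - x j') := by
        have e2 : J.filter (fun j' => j' ≤ j) = insert j (J.filter fun j' => j' < j) := by
          ext i
          simp only [mem_filter, mem_insert]
          constructor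
          · rintro ⟨h1, h2⟩
            rcases Nat.eq_or_lt_of_le h2 with h | h
            · exact Or.inl h
            · exact Or.inr ⟨h1, h⟩
          · rintro (h | ⟨h1, h2⟩)
            · rw [h]
              exact ⟨hj, le_rfl⟩
            · exact ⟨h1, h2.le⟩
        rw [e2, prod_insert (by simp)]
        congr 1
        · simp only [hC, if_true]
          rw [bm_real (hw1 (Sum.inl j)), filter_eq', if_pos (empty_mem_powerset _), sum_singleton]
        · refine prod_congr rfl fun j' hj' => ?_
          rw [mem_filter] at hj'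
          have h3 : j' ≠ j := by omega
          simp only [hC, if_neg h3]
          rw [bm_real (hw1 (Sum.inl j'))]
          have h4 := law_total (hw1 (Sum.inl j'))
          rw [← sum_filter_add_sum_filter_not _ (fun S : Finset ℕ => S = ∅), filter_eq',
            if_pos (empty_mem_powerset _), sum_singleton] at h4
          simp only [hx]
          have h5 : ∑ S ∈ (I (Sum.inl j')).powerset with S ≠ ∅, w (Sum.inl j') S =
              1 - w (Sum.inl j') ∅ := by
            rw [← h4, add_sub_cancel_left]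
          exact h5
      have e3 : Real.exp (-2 * K) ≤ ∏ n ∈ D j,
          (bm (I (Sum.inr n)) (w (Sum.inr n))).real {S | C j (Sum.inr n) S} := by
        refine (prod_ge (fun n hn => ⟨hp n, hD j hj n hn⟩) (hDs j hj)).trans (le_of_eq ?_)
        refine prod_congr rfl fun n hn => ?_
        have h5 : I (Sum.inr n) = {n} := by
          have h6 := (hbI n (Sum.inr n)).2 (hbD j hj n hn)
          simp only [hI] at h6 ⊢
          split_ifs at h6 ⊢ with h7
          · simp at h6
          · rfl
        have h7 : ({n} : Finset ℕ).powerset.filter (fun S => n ∉ S) = {∅} := by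
          ext S
          simp only [mem_filter, mem_powerset, mem_singleton, subset_singleton_iff]
          constructor
          · rintro ⟨h | h, h2⟩
            · exact h
            · rw [h] at h2
              simp at h2
          · intro h
            rw [h]
            simp
        simp only [hC]
        rw [bm_real (hw1 (Sum.inr n)), hw3 (Sum.inr n) n rfl, h5, h7, sum_singleton]
        simp
      rw [e1]
      have h8 : 0 ≤ x j * ∏ j' ∈ J with j' < j, (1 - x j') := by
        refine mul_nonneg ((hw1 (Sum.inl j)).1 ∅ (empty_subset _)) (prod_nonneg fun j' _ => ?_)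
        linarith [hx1 j']
      rw [mul_comm]
      exact mul_le_mul_of_nonneg_left e3 h8
    · rw [disjoint_left]
      intro β h1 h2
      rw [mem_image] at h1 h2
      obtain ⟨_, _, h3⟩ := h1
      obtain ⟨_, _, h4⟩ := h2
      rw [← h3] at h4
      cases h4
  have hXd : ∀ j ∈ J, ∀ j' ∈ J, j ≠ j' → Disjoint (X j) (X j') := by
    have key : ∀ j ∈ J, ∀ j' ∈ J, j < j' → Disjoint (X j) (X j') := by
      intro j hj j' hj' hlt
      rw [Set.disjoint_left]
      intro ω h1 h2
      have g1 := h1 (Sum.inl j) (by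
        simp only [hs]
        exact mem_union_left _ (mem_image_of_mem _ (mem_filter.2 ⟨hj, le_rfl⟩)))
      have g2 := h2 (Sum.inl j) (by
        simp only [hs]
        exact mem_union_left _ (mem_image_of_mem _ (mem_filter.2 ⟨hj, hlt.le⟩)))
      simp only [hC, if_true] at g1
      simp only [hC] at g2
      rw [if_neg (by omega)] at g2
      exact g2 g1
    intro j hj j' hj' hne
    rcases Nat.lt_or_gt_of_ne hne with h | h
    · exact key j hj j' hj' h
    · exact (key j' hj' j hj h).symm
  refine ⟨fun S => P.real (trc A G S), model_law hA G, ?_⟩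
  have h1 : ∑ S ∈ G.powerset with Good S, P.real (trc A G S) =
      P.real (⋃ S ∈ G.powerset.filter Good, trc A G S) :=
    (trc_union hA (fun S hS => mem_powerset.1 (mem_filter.1 hS).1)).symm
  have h2 : (⋃ j ∈ J, X j) ⊆ ⋃ S ∈ G.powerset.filter Good, trc A G S := by
    intro ω hω
    simp only [Set.mem_iUnion] at hω ⊢
    obtain ⟨j, hj, hωj⟩ := hω
    refine ⟨G.filter (fun n => n ∈ A ω), ?_, ?_⟩
    · rw [mem_filter, mem_powerset]
      refine ⟨filter_subset _ _, hG _ (filter_subset _ _) ⟨j, hj, ?_⟩⟩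
      intro n hn hn'
      rw [mem_filter, hAb] at hn'
      rcases hn with h3 | h3
      · have h4 := hωj (Sum.inl j) (by
          simp only [hs]
          exact mem_union_left _ (mem_image_of_mem _ (mem_filter.2 ⟨hj, le_rfl⟩)))
        simp only [hC, if_true] at h4
        rw [hbB j hj n h3, h4] at hn'
        simp at hn'
      · have h4 := hωj (Sum.inr n) (by
          simp only [hs]
          exact mem_union_right _ (mem_image_of_mem _ h3))
        simp only [hC] at h4
        rw [hbD j hj n h3] at hn'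
        exact h4 hn'.2
    · intro n hn
      rw [mem_filter]
      exact ⟨fun h => ⟨hn, h⟩, fun h => h.2⟩
  have h3 : P.real (⋃ j ∈ J, X j) = ∑ j ∈ J, P.real (X j) := by
    rw [measureReal_biUnion_finset]
    · intro j hj j' hj' hne
      exact hXd j hj j' hj' hne
    · intro j _
      exact hXm j
  have h4 : 1 - (1 - δ) ^ J.card ≤ ∑ j ∈ J, x j * ∏ j' ∈ J with j' < j, (1 - x j') := by
    have h5 := prod_one_sub_ordered J x
    have h6 : ∏ j ∈ J, (1 - x j) ≤ (1 - δ) ^ J.card := by
      rw [← prod_const]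
      refine prod_le_prod (fun j _ => by linarith [hx1 j]) (fun j hj => ?_)
      have := hw2 (Sum.inl j) j hj rfl
      simp only [hx]
      linarith
    linarith
  calc Real.exp (-2 * K) * (1 - (1 - δ) ^ J.card)
      ≤ Real.exp (-2 * K) * ∑ j ∈ J, x j * ∏ j' ∈ J with j' < j, (1 - x j') :=
        mul_le_mul_of_nonneg_left h4 (Real.exp_pos _).le
    _ = ∑ j ∈ J, Real.exp (-2 * K) * (x j * ∏ j' ∈ J with j' < j, (1 - x j')) := mul_sum _ _ _
    _ ≤ ∑ j ∈ J, P.real (X j) := sum_le_sum hXp
    _ = P.real (⋃ j ∈ J, X j) := h3.symm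
    _ ≤ P.real (⋃ S ∈ G.powerset.filter Good, trc A G S) :=
        measureReal_mono h2 (measure_ne_top P _)
    _ = _ := h1.symm

/-- events of probability at least `c` at infinitely many scales -/
theorem scales {p : ℕ → ℝ} (hp : ∀ n, 0 ≤ p n) (hp1 : ∀ n, p n ≤ 1) {G : ℕ → Finset ℕ}
    (hG : ∀ i i' n, n ∈ G i → n ∈ G i' → i = i') {Good : ℕ → Finset ℕ → Prop}
    [∀ i, DecidablePred (Good i)] {c : ℝ} (hc : 0 < c)
    (hlaw : ∀ i, ∃ v : Finset ℕ → ℝ, IsLaw (G i) 3 p v ∧
      c ≤ ∑ S ∈ (G i).powerset with Good i S, v S) :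
    ∃ (Ω : Type) (_ : MeasurableSpace Ω) (P : Measure Ω) (_ : IsProbabilityMeasure P)
      (A : Ω → Set ℕ), LimModel P p 3 A ∧
      ∀ᵐ ω ∂P, ∀ i₀ : ℕ, ∃ i, i₀ ≤ i ∧ ∃ S, S ⊆ G i ∧ Good i S ∧ ∀ n ∈ G i, n ∈ A ω → n ∈ S := by
  classical
  set b : ℕ → ℕ ⊕ ℕ := fun n => if h : ∃ i, n ∈ G i then Sum.inl h.choose else Sum.inr n with hb
  set I : ℕ ⊕ ℕ → Finset ℕ := fun β => match β with
    | Sum.inl i => G i
    | Sum.inr n => if ∃ i, n ∈ G i then ∅ else {n} with hI
  have hbG : ∀ i, ∀ n ∈ G i, b n = Sum.inl i := by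
    intro i n hn
    have hex : ∃ i, n ∈ G i := ⟨i, hn⟩
    simp only [hb]
    rw [dif_pos hex]
    exact congrArg Sum.inl (hG _ _ n hex.choose_spec hn)
  have hbI : ∀ n β, n ∈ I β ↔ b n = β := by
    intro n β
    rcases β with i | n'
    · simp only [hI]
      constructor
      · exact hbG i n
      · intro h
        simp only [hb] at h
        split_ifs at h with h1
        have h2 := h1.choose_spec
        rw [Sum.inl_injective h] at h2
        exact h2
    · simp only [hI, hb]
      constructor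
      · intro h
        split_ifs at h with h1
        · simp at h
        · rw [mem_singleton] at h
          subst h
          rw [dif_neg h1]
      · intro h
        split_ifs at h with h1
        have h3 : n = n' := Sum.inr_injective h
        subst h3
        rw [if_neg h1, mem_singleton]
  have hex : ∀ β, ∃ w : Finset ℕ → ℝ, IsLaw (I β) 3 p w ∧
      ∀ i, β = Sum.inl i → c ≤ ∑ S ∈ (G i).powerset with Good i S, w S := by
    intro β
    rcases β with i | n
    · obtain ⟨v, h1, h2⟩ := hlaw i
      refine ⟨v, h1, fun i' h => ?_⟩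
      rw [← Sum.inl_injective h]
      exact h2
    · refine ⟨_, law_prod _ hp hp1 _, fun i h => ?_⟩
      cases h
  choose w hw1 hw2 using hex
  obtain ⟨P, hP, A, hA, hAb, hbox⟩ := glue2 b I hbI 3 hp w hw1
  refine ⟨_, inferInstance, P, hP, A, hA, ?_⟩
  set C : ℕ ⊕ ℕ → Finset ℕ → Prop := fun β S => match β with
    | Sum.inl i => ¬ (S ⊆ G i ∧ Good i S)
    | Sum.inr _ => True with hC
  have hc1 : c ≤ 1 := by
    have h1 := hw2 (Sum.inl 0) 0 rfl
    have h2 := law_total (hw1 (Sum.inl 0))
    refine h1.trans ?_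
    rw [← h2]
    exact sum_le_sum_of_subset_of_nonneg (filter_subset _ _) fun S hS _ =>
      (hw1 (Sum.inl 0)).1 S (mem_powerset.1 hS)
  have hprob : ∀ i₀ m : ℕ, P.real {ω | ∀ β ∈ (Ico i₀ (i₀ + m)).image Sum.inl, C β (ω β)} ≤
      (1 - c) ^ m := by
    intro i₀ m
    rw [(hbox _ C).2, prod_image Sum.inl_injective.injOn]
    have h1 : ∀ i ∈ Ico i₀ (i₀ + m), (bm (I (Sum.inl i)) (w (Sum.inl i))).real
        {S | C (Sum.inl i) S} ≤ 1 - c := by
      intro i _
      have h2 := law_total (hw1 (Sum.inl i))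
      have h3 := hw2 (Sum.inl i) i rfl
      rw [← sum_filter_add_sum_filter_not _ (fun S : Finset ℕ => Good i S)] at h2
      have h2' : ∑ S ∈ (G i).powerset with Good i S, w (Sum.inl i) S +
          ∑ S ∈ (G i).powerset with ¬ Good i S, w (Sum.inl i) S = 1 := h2
      rw [bm_real (hw1 (Sum.inl i))]
      have h4 : ∑ S ∈ (I (Sum.inl i)).powerset with C (Sum.inl i) S, w (Sum.inl i) S =
          ∑ S ∈ (G i).powerset with ¬ Good i S, w (Sum.inl i) S := by
        refine sum_congr ?_ fun _ _ => rfl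
        ext S
        simp only [hI, hC, mem_filter, mem_powerset, not_and]
        constructor
        · rintro ⟨h5, h6⟩
          exact ⟨h5, h6 h5⟩
        · rintro ⟨h5, h6⟩
          exact ⟨h5, fun _ => h6⟩
      rw [h4]
      linarith
    refine (prod_le_prod (fun i _ => measureReal_nonneg) h1).trans (le_of_eq ?_)
    rw [prod_const, Nat.card_Ico, Nat.add_sub_cancel_left]
  have hzero : ∀ i₀ : ℕ, P.real {ω | ∀ i, i₀ ≤ i → C (Sum.inl i) (ω (Sum.inl i))} = 0 := by
    intro i₀
    have hle : ∀ m : ℕ, P.real {ω | ∀ i, i₀ ≤ i → C (Sum.inl i) (ω (Sum.inl i))} ≤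
        (1 - c) ^ m := by
      intro m
      refine le_trans (measureReal_mono ?_ (measure_ne_top P _)) (hprob i₀ m)
      intro ω hω β hβ
      rw [mem_image] at hβ
      obtain ⟨i, hi, rfl⟩ := hβ
      exact hω i (mem_Ico.1 hi).1
    have hlim : Tendsto (fun m : ℕ => (1 - c) ^ m) atTop (𝓝 0) :=
      tendsto_pow_atTop_nhds_zero_of_lt_one (by linarith) (by linarith)
    exact le_antisymm (ge_of_tendsto' hlim hle) measureReal_nonneg
  rw [ae_all_iff]
  intro i₀
  rw [ae_iff]
  have h1 : P {ω | ∀ i, i₀ ≤ i → C (Sum.inl i) (ω (Sum.inl i))} = 0 := by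
    have := hzero i₀
    rwa [measureReal_eq_zero_iff] at this
  refine measure_mono_null ?_ h1
  intro ω hω i hi
  simp only [hC]
  intro h2
  apply hω
  refine ⟨i, hi, ω (Sum.inl i), h2.1, h2.2, fun n hn hn' => ?_⟩
  rw [hAb, hbG i n hn] at hn'
  exact hn'

end Q167.LF
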