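import Pool.Agent.Q167.LF.C
import Pool.Agent.Q167.LF.E
import Pool.Agent.Q167.LF.F

/-! # Independence of order three is not enough -/

set_option autoImplicit false

namespace Q167.LF

open Finset MeasureTheory Filter Q198.CI Q167.WK
open Pool.Agent.Q197.SP.Rf6c (Value)
open Pool.Agent.Q106.IV (Suit DensL hyp_three)
open scoped Topology

/-- the product of the odd numbers up to `2 i + 1` -/
def QQ (i : ℕ) : ℕ := ∏ j ∈ range i, (2 * j + 3)

lemma QQ_odd (i : ℕ) : Odd (QQ i) := by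
  induction i with
  | zero => simp [QQ]
  | succ i ih =>
    unfold QQ at ih ⊢
    rw [prod_range_succ]
    exact ih.mul ⟨i + 1, by ring⟩

lemma dvd_QQ {i l : ℕ} (hl : Odd l) (h3 : 3 ≤ l) (h : l ≤ 2 * i + 1) : l ∣ QQ i := by
  obtain ⟨k, rfl⟩ := hl
  have h1 : k - 1 ∈ range i := by rw [mem_range]; omega
  have h2 := dvd_prod_of_mem (fun j => 2 * j + 3) h1
  unfold QQ
  have h4 : 2 * (k - 1) + 3 = 2 * k + 1 := by omega
  simp only [h4] at h2
  exact h2

lemma suit_nn (z : ℝ) : ∃ Q : ℕ, 0 < Q ∧ ∀ L j : ℕ, Suit (nn Q L j) z := by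
  obtain ⟨B, hB⟩ := exists_nat_ge z
  refine ⟨QQ (B + 1), (QQ_odd _).pos, fun L j => ?_⟩
  have hodd : Odd (nn (QQ (B + 1)) L j) := by
    unfold nn
    exact (QQ_odd _).mul ⟨2 * L * j, by ring⟩
  refine ⟨hodd, Or.inr (Or.inl ?_), ?_⟩
  · unfold nn
    exact (dvd_QQ (by decide) le_rfl (by omega)).mul_right _
  · intro l hl h5 hdvd
    by_contra hz
    push Not at hz
    have h1 : (l : ℝ) ≤ B := by
      have h2 : (1 : ℝ) ≤ l := by exact_mod_cast hl.one_lt.le
      nlinarith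
    have h3 : l ≤ B := by exact_mod_cast h1
    have h4 : l ∣ nn (QQ (B + 1)) L j := by
      unfold nn
      refine (dvd_QQ (hl.odd_of_ne_two (by omega)) (by omega) (by omega)).mul_right _
    have h6 : (l : ℤ) ∣ (nn (QQ (B + 1)) L j : ℤ) := by exact_mod_cast h4
    have h7 : (l : ℤ) ∣ 4 := by
      have e : (4 : ℤ) = (3 * (nn (QQ (B + 1)) L j : ℤ) - 2) * (9 * (nn (QQ (B + 1)) L j : ℤ) - 2) -
          (nn (QQ (B + 1)) L j : ℤ) * (27 * (nn (QQ (B + 1)) L j : ℤ) - 24) := by ring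
      rw [e]
      exact dvd_sub hdvd (h6.mul_right _)
    have h8 : l ∣ 4 := by exact_mod_cast h7
    have h9 := Nat.le_of_dvd (by norm_num) h8
    omega

lemma num_lower (t : (_ : ℕ) × ℕ × ℕ) :
    ((t.1 : ℝ) + 1) / 2 * Real.log 2 ≤ Real.log (num t) ∧ t.1 < num t := by
  have h1 : 1 ≤ 2 ^ t.2.1 := Nat.one_le_two_pow
  have h2 : 1 ≤ 2 ^ t.2.2 := Nat.one_le_two_pow
  have h3 : 1 ≤ 2 ^ t.1 := Nat.one_le_two_pow
  have h4 : t.1 < 2 ^ t.1 := Nat.lt_two_pow_self
  have hnum : num t = 2 ^ t.2.1 + 2 ^ t.2.2 + 2 ^ t.1 + 1 := rfl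
  have hl : 0 < Real.log 2 := Real.log_pos (by norm_num)
  refine ⟨?_, by omega⟩
  have h5 : (4 : ℝ) ≤ num t := by
    have : 4 ≤ num t := by omega
    exact_mod_cast this
  have h6 : (2 : ℝ) ^ t.1 ≤ num t := by
    have : 2 ^ t.1 ≤ num t := by omega
    exact_mod_cast this
  have h7 : 2 * Real.log 2 ≤ Real.log (num t) := by
    have h8 := Real.log_le_log (by norm_num) h5
    have h9 : Real.log 4 = 2 * Real.log 2 := by
      rw [show (4 : ℝ) = 2 ^ 2 by norm_num, Real.log_pow]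
      norm_num
    linarith
  have h8 : (t.1 : ℝ) * Real.log 2 ≤ Real.log (num t) := by
    have h9 := Real.log_le_log (by positivity) h6
    rw [Real.log_pow] at h9
    exact h9
  linarith

lemma p_bound {p : ℕ → ℝ} (hp1 : ∀ N, p N ≤ 1) {C : ℝ}
    (hpC : ∀ᶠ N : ℕ in atTop, p N ≤ C / Real.log N) :
    ∃ C' : ℝ, 0 ≤ C' ∧ ∀ t : (_ : ℕ) × ℕ × ℕ, p (num t) ≤ C' / ((t.1 : ℝ) + 1) := by
  obtain ⟨N₀, hN₀⟩ := eventually_atTop.1 hpC
  have hl : 0 < Real.log 2 := Real.log_pos (by norm_num)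
  refine ⟨N₀ + 2 * |C| / Real.log 2, by positivity, fun t => ?_⟩
  obtain ⟨h1, h2⟩ := num_lower t
  have ht : (0 : ℝ) < (t.1 : ℝ) + 1 := by positivity
  rw [le_div_iff₀ ht]
  by_cases h3 : N₀ ≤ num t
  · have h4 := hN₀ _ h3
    have h5 : 0 < ((t.1 : ℝ) + 1) / 2 * Real.log 2 := by positivity
    have h6 : C / Real.log (num t) ≤ |C| / (((t.1 : ℝ) + 1) / 2 * Real.log 2) :=
      (div_le_div_of_nonneg_right (le_abs_self C) (h5.le.trans h1)).trans
        (div_le_div_of_nonneg_left (abs_nonneg C) h5 h1)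
    calc p (num t) * ((t.1 : ℝ) + 1) ≤ |C| / (((t.1 : ℝ) + 1) / 2 * Real.log 2) *
          ((t.1 : ℝ) + 1) := mul_le_mul_of_nonneg_right (h4.trans h6) ht.le
      _ = 2 * |C| / Real.log 2 := by field_simp
      _ ≤ _ := by
          have : (0 : ℝ) ≤ N₀ := Nat.cast_nonneg _
          linarith
  · have h4 : t.1 + 1 ≤ N₀ := by omega
    have h5 : (t.1 : ℝ) + 1 ≤ N₀ := by exact_mod_cast h4
    have h6 : 0 ≤ 2 * |C| / Real.log 2 := by positivity
    have h7 := mul_le_mul_of_nonneg_right (hp1 (num t)) ht.le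
    linarith

/-- **Independence of order three is not enough.** -/
theorem neg (z : ℝ) {p : ℕ → ℝ} (hp : ∀ N, 0 ≤ p N) (hp1 : ∀ N, p N ≤ 1) {C : ℝ}
    (hpC : ∀ᶠ N : ℕ in atTop, p N ≤ C / Real.log N) :
    ∃ S : Set ℕ, (∀ n ∈ S, Suit n z) ∧ (∀ X : ℕ, {n : ℕ | n ≤ X ∧ n ∈ S}.ncard ≤ Nat.sqrt X) ∧
    ∃ (Ω : Type) (_ : MeasurableSpace Ω) (P : Measure Ω) (_ : IsProbabilityMeasure P)
      (A : Ω → Set ℕ), LimModel P p 3 A ∧
      ∀ᵐ ω ∂P, ∃ᶠ n : ℕ in atTop, n ∈ S ∧ ∀ N, Value n N → N ∉ A ω := by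
  classical
  obtain ⟨Q, hQ, hsuit⟩ := suit_nn z
  obtain ⟨C', hC', hb⟩ := p_bound hp1 hpC
  obtain ⟨K, hK1, hsel⟩ := sel hQ hp hC' hb
  have hK0 : 0 < K := by linarith
  choose L r J hr hJ hgood hdisj using hsel
  -- probabilities at most one half
  obtain ⟨T₀, hT₀⟩ : ∃ T₀ : ℕ, ∀ N, T₀ ≤ N → p N ≤ 1 / 2 := by
    have hlog : Tendsto (fun N : ℕ => Real.log N) atTop atTop :=
      Real.tendsto_log_atTop.comp tendsto_natCast_atTop_atTop
    have h1 := hpC.and (hlog.eventually_ge_atTop (2 * |C| + 1))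
    obtain ⟨T₀, hT₀⟩ := eventually_atTop.1 h1
    refine ⟨T₀, fun N hN => ?_⟩
    obtain ⟨h2, h3⟩ := hT₀ N hN
    refine h2.trans ?_
    have h4 : 0 < Real.log N := by
      have := abs_nonneg C
      linarith
    rw [div_le_iff₀ h4]
    have := le_abs_self C
    linarith
  -- the scales
  set U : ℕ → ℕ := fun T => T + ∑ j ∈ J T, 2 ^ (2 * Nat.sqrt (nn Q (L T) j) + 4) +
    ∑ j ∈ J T, 16 * (nn Q (L T) j + 1) ^ 2 with hU
  have hU16 : ∀ T, ∀ j ∈ J T, 16 * (nn Q (L T) j + 1) ^ 2 ≤ U T := by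
    intro T j hj
    have h2 : 16 * (nn Q (L T) j + 1) ^ 2 ≤ ∑ j ∈ J T, 16 * (nn Q (L T) j + 1) ^ 2 :=
      single_le_sum (f := fun j => 16 * (nn Q (L T) j + 1) ^ 2) (fun _ _ => Nat.zero_le _) hj
    simp only [hU]
    omega
  have hUb : ∀ T, ∀ j ∈ J T, ∀ N, Value (nn Q (L T) j) N → N < U T := by
    intro T j hj N hN
    have h1 := Pool.Agent.Q106.IV.Value.lt hN
    have h2 : 2 ^ (2 * Nat.sqrt (nn Q (L T) j) + 4) ≤
        ∑ j ∈ J T, 2 ^ (2 * Nat.sqrt (nn Q (L T) j) + 4) :=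
      single_le_sum (f := fun j => 2 ^ (2 * Nat.sqrt (nn Q (L T) j) + 4))
        (fun _ _ => Nat.zero_le _) hj
    simp only [hU]
    omega
  have hUgt : ∀ T, T < U T := by
    intro T
    have h1 : (0 : ℝ) < (J T).card := by
      have h2 : (1 : ℝ) ≤ r T := by exact_mod_cast hr T
      linarith [hJ T]
    have h3 : 0 < (J T).card := by exact_mod_cast h1
    obtain ⟨j, hj⟩ := card_pos.1 h3
    have h2 : 2 ^ (2 * Nat.sqrt (nn Q (L T) j) + 4) ≤
        ∑ j ∈ J T, 2 ^ (2 * Nat.sqrt (nn Q (L T) j) + 4) :=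
      single_le_sum (f := fun j => 2 ^ (2 * Nat.sqrt (nn Q (L T) j) + 4))
        (fun _ _ => Nat.zero_le _) hj
    have h4 : 0 < 2 ^ (2 * Nat.sqrt (nn Q (L T) j) + 4) := Nat.two_pow_pos _
    simp only [hU]
    omega
  set τ : ℕ → ℕ := fun i => U^[i] T₀ with hτ
  have hτs : ∀ i, τ (i + 1) = U (τ i) := fun i => by
    simp only [hτ, Function.iterate_succ_apply']
  have hτmono : StrictMono τ := strictMono_nat_of_lt_succ fun i => by
    rw [hτs]
    exact hUgt _
  have hτ0 : ∀ i, T₀ ≤ τ i := fun i => by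
    have := hτmono.monotone (Nat.zero_le i)
    exact this
  set G : ℕ → Finset ℕ := fun i => (J (τ i)).biUnion fun j => VS (nn Q (L (τ i)) j) with hG
  have hGb : ∀ i, ∀ n ∈ G i, τ i ≤ n ∧ n < τ (i + 1) := by
    intro i n hn
    rw [hG, mem_biUnion] at hn
    obtain ⟨j, hj, hn⟩ := hn
    rw [mem_VS] at hn
    refine ⟨(hgood (τ i) j hj).2.1 n hn, ?_⟩
    rw [hτs]
    exact hUb _ j hj n hn
  have hGd : ∀ i i' n, n ∈ G i → n ∈ G i' → i = i' := by
    intro i i' n h1 h2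
    have g1 := hGb i n h1
    have g2 := hGb i' n h2
    by_contra hne
    rcases Nat.lt_or_gt_of_ne hne with h | h
    · have := hτmono.monotone (show i + 1 ≤ i' from h)
      omega
    · have := hτmono.monotone (show i' + 1 ≤ i from h)
      omega
  set Good : ℕ → Finset ℕ → Prop := fun i S =>
    ∃ j ∈ J (τ i), ∀ N, Value (nn Q (L (τ i)) j) N → N ∉ S with hGood
  set c : ℝ := Real.exp (-2 * K) * (1 - Real.exp (-(1 / (8000 * K)))) with hc
  have hc0 : 0 < c := by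
    have h1 : Real.exp (-(1 / (8000 * K))) < 1 := by
      rw [Real.exp_lt_one_iff]
      have : 0 < 1 / (8000 * K) := by positivity
      linarith
    have h2 := Real.exp_pos (-2 * K)
    have h3 : 0 < 1 - Real.exp (-(1 / (8000 * K))) := by linarith
    positivity
  have hlaw : ∀ i, ∃ v : Finset ℕ → ℝ, IsLaw (G i) 3 p v ∧
      c ≤ ∑ S ∈ (G i).powerset with Good i S, v S := by
    intro i
    have hr1 : (1 : ℝ) ≤ r (τ i) := by exact_mod_cast hr (τ i)
    have hr0 : (0 : ℝ) < r (τ i) := by linarith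
    have hm : 1 ≤ K * r (τ i) := by nlinarith
    obtain ⟨v, hv1, hv2⟩ := scale_law hp hp1 (J := J (τ i))
      (B := fun j => VB (nn Q (L (τ i)) j)) (D := fun j => VD (nn Q (L (τ i)) j)) (K := K)
      (δ := 1 / (4000 * (K * r (τ i))))
      (fun j hj j' hj' n h1 h2 => hdisj (τ i) j hj j' hj' n h1 h2)
      (fun j _ j' _ n h1 h2 => (mem_VD.1 h2).2 (mem_VB.1 h1).2)
      (fun j hj => block_three hm (fun n hn => ⟨hp n, hT₀ n ((hτ0 i).trans
        ((hgood (τ i) j hj).2.1 n (mem_VB.1 hn).1))⟩) (hgood (τ i) j hj).2.2.1)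
      (fun j hj n hn => hT₀ n ((hτ0 i).trans ((hgood (τ i) j hj).2.1 n (mem_VD.1 hn).1)))
      (fun j hj => (hgood (τ i) j hj).2.2.2) (G := G i) (Good := Good i)
      (by
        intro S _ hS
        obtain ⟨j, hj, h1⟩ := hS
        refine ⟨j, hj, fun N hN => h1 N ?_⟩
        by_cases h2 : Three N
        · exact Or.inl (mem_VB.2 ⟨hN, h2⟩)
        · exact Or.inr (mem_VD.2 ⟨hN, h2⟩))
    refine ⟨v, hv1, le_trans ?_ hv2⟩
    refine mul_le_mul_of_nonneg_left ?_ (Real.exp_pos _).le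
    have h1 : (1 - 1 / (4000 * (K * r (τ i)))) ^ (J (τ i)).card ≤
        Real.exp (-(1 / (8000 * K))) := by
      have h2 : 0 ≤ 1 - 1 / (4000 * (K * r (τ i))) := by
        have : 1 / (4000 * (K * r (τ i))) ≤ 1 := by
          rw [div_le_one (by positivity)]
          linarith
        linarith
      have h3 : 1 - 1 / (4000 * (K * r (τ i))) ≤ Real.exp (-(1 / (4000 * (K * r (τ i))))) := by
        have := Real.add_one_le_exp (-(1 / (4000 * (K * r (τ i)))))
        linarith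
      refine (pow_le_pow_left₀ h2 h3 _).trans ?_
      rw [← Real.exp_nat_mul]
      apply Real.exp_le_exp.2
      have h4 : (r (τ i) : ℝ) / 2 * (1 / (4000 * (K * r (τ i)))) = 1 / (8000 * K) := by
        field_simp
        norm_num
      have h5 := mul_le_mul_of_nonneg_right (hJ (τ i))
        (show 0 ≤ 1 / (4000 * (K * r (τ i))) by positivity)
      rw [h4] at h5
      linarith
    linarith
  obtain ⟨Ω, i1, P, i2, A, hA, hae⟩ := scales hp hp1 hGd hc0 hlaw
  refine ⟨{n | ∃ i, ∃ j ∈ J (τ i), n = nn Q (L (τ i)) j}, ?_, ?_, Ω, i1, P, i2, A, hA, ?_⟩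
  · rintro n ⟨i, j, _, rfl⟩
    exact hsuit _ _
  · intro X
    obtain ⟨F, hF⟩ : ∃ F : Finset ℕ, F = (range (X + 1)).filter
      (fun n => ∃ i, ∃ j ∈ J (τ i), n = nn Q (L (τ i)) j) := ⟨_, rfl⟩
    have e : {n : ℕ | n ≤ X ∧ n ∈ {n | ∃ i, ∃ j ∈ J (τ i), n = nn Q (L (τ i)) j}} = (F : Set ℕ) := by
      ext n
      rw [hF, mem_coe, mem_filter, mem_range]
      simp only [Set.mem_ofPred_eq]
      constructor
      · rintro ⟨h1, h2⟩
        exact ⟨by omega, h2⟩
      · rintro ⟨h1, h2⟩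
        exact ⟨by omega, h2⟩
    rw [e, Set.ncard_coe_finset]
    rcases F.eq_empty_or_nonempty with h0 | h0
    · rw [h0]
      simp
    · have hm := max'_mem F h0
      set m := F.max' h0 with hmdef
      have hm' := hm
      rw [hF, mem_filter, mem_range] at hm'
      obtain ⟨hmX, i, j, hj, hmj⟩ := hm'
      have hsub : F ⊆ range (Nat.sqrt X / 4) ∪
          (Icc 1 (Nat.sqrt X / 6)).image fun j => nn Q (L (τ i)) j := by
        intro n hn
        have hnm := le_max' F n hn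
        rw [hF, mem_filter, mem_range] at hn
        obtain ⟨hnX, i', j', hj', hnj⟩ := hn
        obtain ⟨⟨g1, g2, g3⟩, _⟩ := hgood (τ i') j' hj'
        rw [← hnj] at g1 g3
        have hi : i' ≤ i := by
          by_contra h
          push Not at h
          have h1 := hτmono.monotone (show i + 1 ≤ i' from h)
          rw [hτs] at h1
          have h2 := hU16 (τ i) j hj
          rw [← hmj] at h2
          nlinarith
        rcases Nat.eq_or_lt_of_le hi with h | h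
        · subst h
          refine mem_union_right _ (mem_image.2 ⟨j', ?_, hnj.symm⟩)
          rw [mem_Icc]
          refine ⟨g2, ?_⟩
          rw [Nat.le_div_iff_mul_le (by norm_num), Nat.le_sqrt]
          nlinarith
        · refine mem_union_left _ (mem_range.2 ?_)
          have h1 := hτmono.monotone (show i' + 1 ≤ i from h)
          rw [hτs] at h1
          have h2 := hU16 (τ i') j' hj'
          rw [← hnj] at h2
          have h3 := (hgood (τ i) j hj).1.1
          rw [← hmj] at h3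
          have h4 : (4 * (n + 1)) * (4 * (n + 1)) ≤ X := by nlinarith
          rw [← Nat.le_sqrt] at h4
          omega
      refine (card_le_card hsub).trans ((card_union_le _ _).trans ?_)
      have h5 : ((Icc 1 (Nat.sqrt X / 6)).image fun j => nn Q (L (τ i)) j).card ≤
          Nat.sqrt X / 6 := card_image_le.trans (by rw [Nat.card_Icc]; omega)
      rw [card_range]
      omega
  filter_upwards [hae] with ω hω
  rw [frequently_atTop]
  intro n₀
  obtain ⟨i, hi, S, _, ⟨j, hj, hgS⟩, hAS⟩ := hω n₀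
  refine ⟨nn Q (L (τ i)) j, ?_, ⟨i, j, hj, rfl⟩, fun N hN hNA => ?_⟩
  · have h1 := hτmono.id_le i
    have h2 := (hgood (τ i) j hj).1.1
    simp only [id] at h1
    omega
  · refine hgS N hN (hAS N ?_ hNA)
    rw [hG, mem_biUnion]
    exact ⟨j, hj, mem_VS.2 hN⟩

end Q167.LF
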