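import Pool.Agent.Q167.LF.C

/-! # Sparse sequences -/

set_option autoImplicit false

namespace Q167.LF

open Finset MeasureTheory Filter Q198.CI Q167.WK
open scoped Topology

variable {Ω : Type*} [MeasurableSpace Ω] {μ : Measure Ω} {p : ℕ → ℝ} {κ : ℕ} {A : Ω → Set ℕ}
  {V : ℕ → ℕ → Prop} {G : ℕ → Prop}

open Classical in
/-- order `2 h` and sets with at most `X ^ (h / 2 - δ)` elements up to `X` -/
theorem sparse_good [IsProbabilityMeasure μ] (hA : LimModel μ p κ A) (hp : ∀ i, 0 ≤ p i)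
    (hp1 : ∀ i, p i ≤ 1) (hyp : Hyp V G p) {h : ℕ} (hK : 2 * h ≤ κ)
    {S : Set ℕ} {δ : ℝ} (hδ : 0 < δ)
    (hS : ∀ᶠ X : ℕ in atTop, (((range (X + 1)).filter fun n => n ∈ S).card : ℝ) ≤
      (X : ℝ) ^ ((h : ℝ) / 2 - δ)) {ε : ℝ} (hε : 0 < ε) :
    ∀ᵐ ω ∂μ, ∀ᶠ n : ℕ in atTop, n ∈ S → G n → Many V ε n (A ω) := by
  set η : ℝ := min (min ε 1) (δ / (h + 1)) with hη
  have hh0 : (0 : ℝ) < (h : ℝ) + 1 := by positivity
  have hη0 : 0 < η := by
    rw [hη]
    positivity
  have hη1 : η ≤ 1 := (min_le_left _ _).trans (min_le_right _ _)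
  have hη2 : η ≤ ε := (min_le_left _ _).trans (min_le_left _ _)
  have hη3 : η * (h + 1) ≤ δ := by
    have h1 : η ≤ δ / (h + 1) := min_le_right _ _
    rwa [le_div_iff₀ hh0] at h1
  obtain ⟨n₀, hn0, B, D, hD, _, h2, h3⟩ := core hA hp hp1 hyp (h := h) hK (ε := η) hη0 hη1
  obtain ⟨X₀, hX₀⟩ := eventually_atTop.1 hS
  -- dyadic blocks
  set I : ℕ → Finset ℕ := fun k => (range (2 ^ (k + 1) + 1)).filter
    fun n => n ∈ S ∧ 2 ^ k ≤ n with hI
  set E : ℕ → Set Ω := fun k => if max n₀ X₀ ≤ 2 ^ k then ⋃ n ∈ I k, B n else ∅ with hE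
  set ρ : ℝ := (2 : ℝ) ^ (-(δ / 2)) with hρ
  have hρ1 : ρ < 1 := by
    rw [hρ]
    exact Real.rpow_lt_one_of_one_lt_of_neg (by norm_num) (by linarith)
  have hρ0 : 0 < ρ := Real.rpow_pos_of_pos (by norm_num) _
  set M : ℝ := (2 : ℝ) ^ ((h : ℝ) / 2) * D with hM
  have hM0 : 0 < M := by positivity
  have hb : ∀ k, μ (E k) ≤ ENNReal.ofReal (M * ρ ^ k) := by
    intro k
    simp only [hE]
    split_ifs with hk
    · have hn1 : n₀ ≤ 2 ^ k := (le_max_left _ _).trans hk
      have hx1 : X₀ ≤ 2 ^ (k + 1) := ((le_max_right _ _).trans hk).trans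
        (Nat.pow_le_pow_right (by norm_num) (by omega))
      have e1 : μ.real (⋃ n ∈ I k, B n) ≤ ∑ n ∈ I k, μ.real (B n) :=
        measureReal_biUnion_finset_le _ _
      have e2 : ∀ n ∈ I k, μ.real (B n) ≤ D * ((2 : ℝ) ^ k) ^ (-(h : ℝ) * (1 / 2 - η / 2)) := by
        intro n hn
        rw [hI, mem_filter] at hn
        refine (h2 n (hn1.trans hn.2.2)).trans (mul_le_mul_of_nonneg_left ?_ hD.le)
        refine Real.rpow_le_rpow_of_nonpos (by positivity) (by exact_mod_cast hn.2.2) ?_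
        have : (0 : ℝ) ≤ h := Nat.cast_nonneg _
        nlinarith
      have e3 : ((I k).card : ℝ) ≤ ((2 : ℝ) ^ (k + 1)) ^ ((h : ℝ) / 2 - δ) := by
        have e4 := hX₀ (2 ^ (k + 1)) hx1
        push_cast at e4
        refine le_trans ?_ e4
        have e5 : I k ⊆ (range (2 ^ (k + 1) + 1)).filter fun n => n ∈ S := by
          intro n hn
          rw [hI, mem_filter] at hn
          exact mem_filter.2 ⟨hn.1, hn.2.1⟩
        exact_mod_cast card_le_card e5
      have e6 : μ.real (⋃ n ∈ I k, B n) ≤ M * ρ ^ k := by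
        calc μ.real (⋃ n ∈ I k, B n) ≤ ∑ n ∈ I k, μ.real (B n) := e1
          _ ≤ ∑ _n ∈ I k, D * ((2 : ℝ) ^ k) ^ (-(h : ℝ) * (1 / 2 - η / 2)) := sum_le_sum e2
          _ = ((I k).card : ℝ) * (D * ((2 : ℝ) ^ k) ^ (-(h : ℝ) * (1 / 2 - η / 2))) := by
              rw [sum_const, nsmul_eq_mul]
          _ ≤ ((2 : ℝ) ^ (k + 1)) ^ ((h : ℝ) / 2 - δ) *
              (D * ((2 : ℝ) ^ k) ^ (-(h : ℝ) * (1 / 2 - η / 2))) :=
              mul_le_mul_of_nonneg_right e3 (by positivity)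
          _ = (2 : ℝ) ^ ((h : ℝ) / 2 - δ) * D *
              (2 : ℝ) ^ ((k : ℝ) * (-δ + (h : ℝ) * η / 2)) := by
              rw [← Real.rpow_natCast, ← Real.rpow_natCast, ← Real.rpow_mul (by norm_num),
                ← Real.rpow_mul (by norm_num)]
              have e7 : (2 : ℝ) ^ (((k + 1 : ℕ) : ℝ) * ((h : ℝ) / 2 - δ)) =
                  (2 : ℝ) ^ ((h : ℝ) / 2 - δ) * (2 : ℝ) ^ ((k : ℝ) * ((h : ℝ) / 2 - δ)) := by
                rw [← Real.rpow_add (by norm_num)]
                congr 1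
                push_cast
                ring
              rw [e7]
              have e8 : (2 : ℝ) ^ ((k : ℝ) * (-δ + (h : ℝ) * η / 2)) =
                  (2 : ℝ) ^ ((k : ℝ) * ((h : ℝ) / 2 - δ)) *
                    (2 : ℝ) ^ ((k : ℝ) * (-(h : ℝ) * (1 / 2 - η / 2))) := by
                rw [← Real.rpow_add (by norm_num)]
                congr 1
                ring
              rw [e8]
              ring
          _ ≤ (2 : ℝ) ^ ((h : ℝ) / 2) * D * (2 : ℝ) ^ ((k : ℝ) * (-(δ / 2))) := by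
              refine mul_le_mul (mul_le_mul_of_nonneg_right ?_ hD.le) ?_ (by positivity)
                (by positivity)
              · exact Real.rpow_le_rpow_of_exponent_le (by norm_num) (by linarith)
              · refine Real.rpow_le_rpow_of_exponent_le (by norm_num) ?_
                refine mul_le_mul_of_nonneg_left ?_ (Nat.cast_nonneg _)
                nlinarith
          _ = M * ρ ^ k := by
              rw [hρ, ← Real.rpow_natCast, ← Real.rpow_mul (by norm_num), mul_comm (k : ℝ)]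
      rw [← ENNReal.ofReal_toReal (measure_ne_top μ (⋃ n ∈ I k, B n))]
      exact ENNReal.ofReal_le_ofReal e6
    · simp
  have hs : Summable (fun k : ℕ => M * ρ ^ k) :=
    (summable_geometric_of_lt_one hρ0.le hρ1).mul_left M
  have hsum : ∑' k, μ (E k) ≠ ⊤ :=
    ne_top_of_le_ne_top hs.tsum_ofReal_ne_top (ENNReal.tsum_le_tsum hb)
  filter_upwards [ae_eventually_notMem hsum] with ω hω
  obtain ⟨k₀, hk₀⟩ := eventually_atTop.1 hω
  filter_upwards [eventually_ge_atTop (2 ^ (k₀ + max n₀ X₀))] with n hn hnS hG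
  have hnpos : n ≠ 0 := by
    have : 0 < 2 ^ (k₀ + max n₀ X₀) := Nat.two_pow_pos _
    omega
  set k := Nat.log 2 n with hk
  have g1 : 2 ^ k ≤ n := Nat.pow_log_le_self 2 hnpos
  have g2 : n < 2 ^ (k + 1) := Nat.lt_pow_succ_log_self (by norm_num) n
  have g3 : k₀ + max n₀ X₀ ≤ k := by
    have := Nat.log_mono_right (b := 2) hn
    rwa [Nat.log_pow (by norm_num)] at this
  have g4 : max n₀ X₀ ≤ 2 ^ k := by
    have : k < 2 ^ k := Nat.lt_two_pow_self
    omega
  have g5 : n₀ ≤ n := ((le_max_left _ _).trans g4).trans g1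
  have g6 := hk₀ k (by omega)
  simp only [hE, if_pos g4, Set.mem_iUnion, not_exists] at g6
  have g7 := g6 n (by
    rw [hI, mem_filter, mem_range]
    exact ⟨by omega, hnS, g1⟩)
  exact (h3 n g5 ω hG g7).mono (hn0.trans g5) hη2

end Q167.LF
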